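import Mathlib
import Pool.Agent.Y359.PE.Prod

/-!
# The entropy of a sum of two independent variables, one of which is mostly zero

The other variable is arbitrary.
-/

set_option autoImplicit false

namespace Pool.Agent.X66.SP

open Finset Pool.Agent.Y359.PE
open scoped Classical

variable {α β M : Type*} [AddCommGroup M]

/-- the numerical inequality -/
lemma num_theta {θ : ℝ} (hθ : 0 < θ) (hθ1 : θ < 1) :
    θ * Real.log (1 / θ) + Real.sqrt θ * (Real.log (1 / θ) + Real.log (1 / θ) ^ 2) ≤ 4 := by
  set t : ℝ := Real.log (1 / θ) / 4 with ht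
  have hℓ : Real.log (1 / θ) = 4 * t := by rw [ht]; ring
  have hℓ0 : 0 < Real.log (1 / θ) := Real.log_pos (by rw [lt_div_iff₀ hθ]; linarith)
  have ht0 : 0 < t := by rw [ht]; positivity
  have h1 : θ = Real.exp (-(4 * t)) := by
    rw [← hℓ, one_div, Real.log_inv, neg_neg, Real.exp_log hθ]
  have h2 : Real.sqrt θ = Real.exp (-(2 * t)) := by
    rw [h1, show -(4 * t) = -(2 * t) + -(2 * t) by ring, Real.exp_add,
      Real.sqrt_mul_self (Real.exp_pos _).le]
  have key : ∀ y : ℝ, 0 ≤ y → y * Real.exp (-y) ≤ 0.368 := by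
    intro y hy
    have e1 := Real.add_one_le_exp (y - 1)
    have e2 : Real.exp (y - 1) = Real.exp y * Real.exp (-1) := by
      rw [← Real.exp_add]; ring_nf
    have e3 : Real.exp (-1) ≤ 0.368 := by
      rw [Real.exp_neg]
      have := Real.exp_one_gt_d9
      rw [inv_le_comm₀ (Real.exp_pos 1) (by norm_num)]
      norm_num
      linarith
    have e4 : y ≤ Real.exp y * 0.368 := by
      have := mul_le_mul_of_nonneg_left e3 (Real.exp_pos y).le
      linarith
    have e5 := mul_le_mul_of_nonneg_right e4 (Real.exp_pos (-y)).le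
    have e6 : Real.exp y * 0.368 * Real.exp (-y) = 0.368 := by
      rw [mul_right_comm, ← Real.exp_add]
      simp
    linarith
  have k1 := key t ht0.le
  have k2 := key (2 * t) (by linarith)
  have k4 := key (4 * t) (by linarith)
  have hp : 0 ≤ t * Real.exp (-t) := by positivity
  have e7 : Real.exp (-(2 * t)) = Real.exp (-t) * Real.exp (-t) := by
    rw [← Real.exp_add]; ring_nf
  rw [h2, hℓ]
  have e8 : Real.exp (-(2 * t)) * (4 * t + (4 * t) ^ 2) =
      2 * (2 * t * Real.exp (-(2 * t))) + 16 * (t * Real.exp (-t)) ^ 2 := by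
    rw [e7]; ring
  have e9 : θ * (4 * t) = 4 * t * Real.exp (-(4 * t)) := by
    rw [← h1]; ring
  rw [e8, e9]
  have e10 : (t * Real.exp (-t)) ^ 2 ≤ 0.368 ^ 2 := pow_le_pow_left₀ hp k1 2
  norm_num at e10 ⊢
  linarith

/-- the entropy of a variable which has no value of large probability -/
lemma h_ge_of_fc (G : Finset α) (hG : G.Nonempty) (a : α → M) {s : ℝ} (hs0 : 0 ≤ s) (hs1 : s < 1)
    (hfc : ∀ g ∈ G, (fc G a g : ℝ) ≤ (1 - s) * G.card) : s ≤ h G a := by
  have hN : (0 : ℝ) < G.card := by exact_mod_cast card_pos.2 hG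
  unfold h
  rw [le_div_iff₀ hN]
  have h1 : ∀ g ∈ G, s ≤ Real.log G.card - Real.log (fc G a g) := by
    intro g hg
    have h2 := fc_posR (f := a) hg
    have h3 := Real.log_le_log h2 (hfc g hg)
    rw [Real.log_mul (by linarith) hN.ne'] at h3
    have h4 := Real.log_le_sub_one_of_pos (show 0 < 1 - s by linarith)
    linarith
  have h5 := sum_le_sum h1
  rw [sum_const, nsmul_eq_mul] at h5
  linarith

/-- the entropy of a variable which is mostly zero, from above -/
lemma h_upper (G' : Finset β) (hG' : G'.Nonempty) (b : β → M) {θ : ℝ} (hθ : 0 < θ)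
    (hθ1 : θ ≤ 1 / 3) (h2 : (nz G' b : ℝ) ≤ θ * G'.card) :
    G'.card * h G' b ≤ θ * G'.card * (1 + Real.log (1 / θ)) +
      nz G' b * h (G'.filter fun g => b g ≠ 0) b := by
  have hN : (0 : ℝ) < G'.card := by exact_mod_cast card_pos.2 hG'
  set N : ℝ := (G'.card : ℝ) with hNd
  set G1 := G'.filter fun g => b g ≠ 0 with hG1
  set G0 := G'.filter fun g => ¬ b g ≠ 0 with hG0
  have hnz : nz G' b = G1.card := rfl
  have hcard : G1.card + G0.card = G'.card := card_filter_add_card_filter_not _
  have hcardr : (G1.card : ℝ) + G0.card = N := by rw [hNd]; exact_mod_cast hcard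
  have hℓ1 : 1 ≤ Real.log (1 / θ) := by
    have h3 : Real.log 3 ≤ Real.log (1 / θ) := by
      refine Real.log_le_log (by norm_num) ?_
      rw [le_div_iff₀ hθ]
      linarith
    have h4 : 1 < Real.log 3 := by
      have := Real.exp_one_lt_d9
      rw [Real.lt_log_iff_exp_lt (by norm_num)]
      linarith
    linarith
  set ℓ := Real.log (1 / θ) with hℓ
  rw [hnz] at h2 ⊢
  have e0 : N * h G' b = ∑ g ∈ G', (Real.log N - Real.log (fc G' b g)) := by
    unfold h
    rw [mul_div_cancel₀ _ hN.ne']
  rw [e0, ← sum_filter_add_sum_filter_not G' (fun g => b g ≠ 0)]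
  change ∑ g ∈ G1, _ + ∑ g ∈ G0, _ ≤ _
  -- the zero part
  have hG0le : ∑ g ∈ G0, (Real.log N - Real.log (fc G' b g)) ≤ G1.card := by
    rcases G0.eq_empty_or_nonempty with h0 | hne
    · rw [h0, sum_empty]; positivity
    · have hc0 : (0 : ℝ) < G0.card := by exact_mod_cast card_pos.2 hne
      have e1 : ∀ g ∈ G0, Real.log N - Real.log (fc G' b g) = Real.log N - Real.log G0.card := by
        intro g hg
        have hg' := mem_filter.1 hg
        have hb : b g = 0 := not_not.1 hg'.2
        have e2 : cl G' b g = G0 := by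
          ext y
          rw [mem_cl, mem_filter, hb, not_not]
        unfold fc
        rw [e2]
      rw [sum_congr rfl e1, sum_const, nsmul_eq_mul]
      have e3 := Real.log_le_sub_one_of_pos (show 0 < N / G0.card by positivity)
      rw [Real.log_div hN.ne' hc0.ne'] at e3
      have e4 := mul_le_mul_of_nonneg_left e3 hc0.le
      have e5 : (G0.card : ℝ) * (N / G0.card - 1) = G1.card := by
        rw [mul_sub, mul_div_cancel₀ _ hc0.ne']
        linarith
      linarith
  -- the nonzero part
  have hG1le : ∑ g ∈ G1, (Real.log N - Real.log (fc G' b g)) ≤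
      (θ * N - G1.card) * ℓ + G1.card * ℓ + G1.card * h G1 b := by
    rcases G1.eq_empty_or_nonempty with h0 | hne
    · rw [h0, sum_empty]
      simp only [card_empty, Nat.cast_zero, sub_zero, zero_mul, add_zero]
      positivity
    · have hc1 : (0 : ℝ) < G1.card := by exact_mod_cast card_pos.2 hne
      have e1 : ∀ g ∈ G1, Real.log N - Real.log (fc G' b g) = (Real.log N - Real.log G1.card) +
          (Real.log G1.card - Real.log (fc G1 b g)) := by
        intro g hg
        have hg' := mem_filter.1 hg
        have e2 : cl G' b g = cl G1 b g := by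
          ext y
          rw [mem_cl, mem_cl, mem_filter]
          constructor
          · rintro ⟨c1, c2⟩
            exact ⟨⟨c1, by rw [c2]; exact hg'.2⟩, c2⟩
          · rintro ⟨⟨c1, _⟩, c2⟩
            exact ⟨c1, c2⟩
        have e3 : fc G' b g = fc G1 b g := by
          unfold fc
          rw [e2]
        rw [e3]
        ring
      rw [sum_congr rfl e1, sum_add_distrib, sum_const, nsmul_eq_mul]
      have e4 : ∑ g ∈ G1, (Real.log G1.card - Real.log (fc G1 b g)) = G1.card * h G1 b := by
        unfold h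
        rw [mul_div_cancel₀ _ hc1.ne']
      rw [e4]
      have e5 := Real.log_le_sub_one_of_pos (show 0 < θ * N / G1.card by positivity)
      rw [Real.log_div (by positivity) hc1.ne', Real.log_mul hθ.ne' hN.ne'] at e5
      have e6 : Real.log θ = -ℓ := by rw [hℓ, one_div, Real.log_inv, neg_neg]
      rw [e6] at e5
      have e7 := mul_le_mul_of_nonneg_left e5 hc1.le
      have e8 : (G1.card : ℝ) * (θ * N / G1.card - 1) = θ * N - G1.card := by
        rw [mul_sub, mul_div_cancel₀ _ hc1.ne']
        ring
      have e9 : θ * N - G1.card ≤ (θ * N - G1.card) * ℓ := le_mul_of_one_le_right (by linarith) hℓ1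
      linarith
  linarith

/-- **The main inequality, one-sided**: if one of the variables is nonzero with probability at most
`θ ≤ 1/9`, the entropy of the sum is at least `1 - 4 / log (1/θ)` times the sum of the entropies. -/
lemma cell_one (G : Finset α) (G' : Finset β) (hG : G.Nonempty) (hG' : G'.Nonempty)
    (a : α → M) (b : β → M) {θ : ℝ} (hθ : 0 < θ) (hθ1 : θ ≤ 1 / 9)
    (h2 : (nz G' b : ℝ) ≤ θ * G'.card) :
    (1 - 4 / Real.log (1 / θ)) * (h G a + h G' b) ≤ h (G ×ˢ G') (fun x => a x.1 + b x.2) := by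
  have hN : (0 : ℝ) < G.card := by exact_mod_cast card_pos.2 hG
  have hN' : (0 : ℝ) < G'.card := by exact_mod_cast card_pos.2 hG'
  have hs0 : 0 < Real.sqrt θ := Real.sqrt_pos.2 hθ
  have hs3 : Real.sqrt θ ≤ 1 / 3 := by
    rw [Real.sqrt_le_left (by norm_num)]
    norm_num
    linarith
  have hss : Real.sqrt θ * Real.sqrt θ = θ := Real.mul_self_sqrt hθ.le
  have hθs : θ ≤ Real.sqrt θ := by nlinarith
  obtain ⟨g0, hg0, hmax⟩ := G.exists_max_image (fun g => fc G a g) hG
  set a' : α → M := fun g => a g - a g0 with ha'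
  have hha : h G a' = h G a := h_congr fun x _ y _ => by
    simp only [ha']
    exact sub_left_inj
  have hhz : h (G ×ˢ G') (fun x => a' x.1 + b x.2) = h (G ×ˢ G') (fun x => a x.1 + b x.2) :=
    h_congr fun x _ y _ => by
      simp only [ha']
      rw [sub_add_eq_add_sub, sub_add_eq_add_sub, sub_left_inj]
  have hnza : (nz G a' : ℝ) + fc G a g0 = G.card := by
    have h1 : nz G a' + fc G a g0 = G.card := by
      unfold nz fc cl
      have e1 : (G.filter fun y => a y = a g0) = G.filter fun g => ¬ a' g ≠ 0 := by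
        refine filter_congr fun y _ => ?_
        simp only [ha', ne_eq, not_not, sub_eq_zero]
      rw [e1]
      exact card_filter_add_card_filter_not _
    exact_mod_cast h1
  by_cases hc : (nz G a' : ℝ) ≤ Real.sqrt θ * G.card
  · have main := cell_main G G' hG hG' a' b hs0 hs3 hc
      (h2.trans (mul_le_mul_of_nonneg_right hθs hN'.le))
    rw [hha, hhz] at main
    have e1 : Real.log (1 / Real.sqrt θ) = Real.log (1 / θ) / 2 := by
      rw [one_div, one_div, Real.log_inv, Real.log_inv, Real.log_sqrt hθ.le]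
      ring
    have e2 : 2 / Real.log (1 / Real.sqrt θ) = 4 / Real.log (1 / θ) := by
      rw [e1, div_div_eq_mul_div]
      norm_num
    rwa [e2] at main
  · -- `a` has no value of large probability
    rw [not_le] at hc
    have hlow : Real.sqrt θ ≤ h G a := by
      refine h_ge_of_fc G hG a hs0.le (by linarith) fun g hg => ?_
      have h3 : (fc G a g : ℝ) ≤ fc G a g0 := by exact_mod_cast hmax g hg
      linarith
    have hup := h_upper G' hG' b hθ (by linarith) h2
    set G1 := G'.filter fun g => b g ≠ 0 with hG1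
    -- the lower bound
    have hz : (G'.card - nz G' b) * h G a + nz G' b * h G1 b ≤
        G'.card * h (G ×ˢ G') (fun x => a x.1 + b x.2) := by
      have s1 := submod (G ×ˢ G') (fun _ => (0 : ℕ)) (fun x => decide (b x.2 ≠ 0))
        (fun x => a x.1 + b x.2) (fun _ _ _ _ _ => rfl)
      have s2 : h (G ×ˢ G') (fun x : α × β => ((0 : ℕ), a x.1 + b x.2)) =
          h (G ×ˢ G') (fun x => a x.1 + b x.2) := h_congr fun x _ y _ => by simp
      have s3 : h (G ×ˢ G') (fun _ : α × β => (0 : ℕ)) = 0 := h_const _ _ fun _ _ _ _ => rfl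
      rw [s2, s3, sub_zero, chain] at s1
      rw [div_le_iff₀ (by rw [card_product]; push_cast; positivity), card_product, sum_product]
        at s1
      have s4 : ∀ g ∈ G, ∀ g' ∈ G', (if b g' ≠ 0 then h G1 b else h G a) ≤
          h (cl (G ×ˢ G') (fun x => decide (b x.2 ≠ 0)) (g, g')) (fun x => a x.1 + b x.2) := by
        intro g hg g' hg'
        split_ifs with hb
        · have e1 : cl (G ×ˢ G') (fun x => decide (b x.2 ≠ 0)) (g, g') = G ×ˢ G1 := by
            ext x
            rw [mem_cl, mem_product, mem_product, hG1, mem_filter, decide_eq_decide]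
            simp only [hb, ne_eq, not_false_iff, iff_true]
            tauto
          rw [e1]
          exact cell_right G G1 hG a b
        · have e1 : cl (G ×ˢ G') (fun x => decide (b x.2 ≠ 0)) (g, g') =
              G ×ˢ G'.filter (fun g => ¬ b g ≠ 0) := by
            ext x
            rw [mem_cl, mem_product, mem_product, mem_filter, decide_eq_decide]
            have hb' : ¬ (b g' ≠ 0) := hb
            simp only [hb', iff_false]
            tauto
          rw [e1]
          exact cell_left G _ ⟨g', mem_filter.2 ⟨hg', hb⟩⟩ a b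
      have s5 := sum_le_sum fun g hg => sum_le_sum fun g' hg' => s4 g hg g' hg'
      have s6 : ∑ g' ∈ G', (if b g' ≠ 0 then h G1 b else h G a) =
          nz G' b * h G1 b + (G'.card - nz G' b) * h G a := by
        rw [sum_ite, sum_const, sum_const, nsmul_eq_mul, nsmul_eq_mul]
        have e1 : ((G'.filter fun g => ¬ b g ≠ 0).card : ℝ) = G'.card - nz G' b := by
          have : (nz G' b : ℝ) + (G'.filter fun g => ¬ b g ≠ 0).card = G'.card := by
            unfold nz
            exact_mod_cast card_filter_add_card_filter_not (s := G') (fun g => b g ≠ 0)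
          linarith
        rw [e1]
        rfl
      rw [s6, sum_const, nsmul_eq_mul] at s5
      have s7 := s5.trans s1
      push_cast at s7
      have s8 : (G.card : ℝ) * (nz G' b * h G1 b + (G'.card - nz G' b) * h G a) ≤
          G.card * (G'.card * h (G ×ˢ G') (fun x => a x.1 + b x.2)) := by linarith
      have := le_of_mul_le_mul_left s8 hN
      linarith
    set Ha := h G a with hHa
    set Hb := h G' b with hHb
    set H1 := h G1 b with hH1
    set Z := h (G ×ˢ G') (fun x => a x.1 + b x.2) with hZ
    have hHa0 : 0 ≤ Ha := h_nonneg _ _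
    have hHb0 : 0 ≤ Hb := h_nonneg _ _
    set ℓ := Real.log (1 / θ) with hℓ
    have hℓ0 : 0 < ℓ := Real.log_pos (by rw [lt_div_iff₀ hθ]; linarith)
    have hnum := num_theta hθ (by linarith)
    rw [← hℓ] at hnum
    have q1 : (nz G' b : ℝ) * Ha ≤ θ * G'.card * Ha := mul_le_mul_of_nonneg_right h2 hHa0
    have q2 : (G'.card : ℝ) * (Ha + Hb - θ * (Ha + 1 + ℓ)) ≤ G'.card * Z := by
      linarith
    have q3 := le_of_mul_le_mul_left q2 hN'
    have q4 : θ * (Ha + 1 + ℓ) * ℓ ≤ 4 * Ha := by
      have e1 : θ * (1 + ℓ) * ℓ ≤ Real.sqrt θ * (ℓ + ℓ ^ 2) * Ha := by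
        have e2 : θ * (1 + ℓ) * ℓ = Real.sqrt θ * (ℓ + ℓ ^ 2) * Real.sqrt θ := by
          calc θ * (1 + ℓ) * ℓ = (Real.sqrt θ * Real.sqrt θ) * (1 + ℓ) * ℓ := by rw [hss]
            _ = _ := by ring
        rw [e2]
        exact mul_le_mul_of_nonneg_left hlow (by positivity)
      have e3 := mul_le_mul_of_nonneg_right hnum hHa0
      nlinarith [e1, e3]
    have q5 : θ * (Ha + 1 + ℓ) ≤ 4 / ℓ * (Ha + Hb) := by
      rw [div_mul_eq_mul_div, le_div_iff₀ hℓ0]
      linarith
    linarith

end Pool.Agent.X66.SP
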