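import Mathlib
import Pool.Agent.X66.SP.Cell
import Pool.Agent.Y359.PE.PairRuns

/-!
# Entropies of sums of independent vectors, one of which has sparse coordinates
-/

set_option autoImplicit false

namespace Pool.Agent.X66.SP

open Finset Pool.Agent.Y359.PE
open scoped Classical Pointwise

variable {α β ι M V : Type*}

/-- the cell inequalities together -/
lemma cell_gen_one [AddCommGroup V] (G : Finset α) (G' : Finset β) (hG : G.Nonempty)
    (hG' : G'.Nonempty) (a : α → V) (b : β → V) {θ : ℝ} (hθ : 0 < θ) (hθ1 : θ ≤ 1 / 9) :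
    (1 - 4 / Real.log (1 / θ)) * (h G a + h G' b) -
      (if (nz G' b : ℝ) ≤ θ * G'.card then 0 else 1) * h G a ≤
      h (G ×ˢ G') (fun x => a x.1 + b x.2) := by
  have hl3 : 0 < Real.log (1 / θ) := by
    refine Real.log_pos ?_
    rw [lt_div_iff₀ hθ]
    linarith
  have h1 := h_nonneg G a
  have h2 := h_nonneg G' b
  have h4 := cell_right G G' hG a b
  have h5 : 0 ≤ 4 / Real.log (1 / θ) * (h G a + h G' b) := by positivity
  split_ifs with c1
  · have := cell_one G G' hG hG' a b hθ hθ1 c1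
    linarith
  · linarith

/-- **The one-sided step**: adding a coordinate. -/
theorem step_one [AddCommGroup M] [AddCommGroup V] (A : Finset α) (B : Finset β) (hA : A.Nonempty)
    (hB : B.Nonempty) (F : α → M) (F' : β → M) (x : α → V) (y : β → V) {τ θ : ℝ} (hθ : 0 < θ)
    (hθ1 : θ ≤ 1 / 9) (hτ : 0 ≤ τ) (hy : (nz B y : ℝ) ≤ τ * B.card) :
    (1 - 4 / Real.log (1 / θ) - τ / θ) * ((h A (fun u => (F u, x u)) - h A F) +
      (h B (fun u => (F' u, y u)) - h B F')) ≤
      h (A ×ˢ B) (fun s => (F s.1 + F' s.2, x s.1 + y s.2)) -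
        h (A ×ˢ B) (fun s => F s.1 + F' s.2) := by
  have hAc : (0 : ℝ) < A.card := by exact_mod_cast card_pos.2 hA
  have hBc : (0 : ℝ) < B.card := by exact_mod_cast card_pos.2 hB
  have h1 := submod (A ×ˢ B) (fun s => F s.1 + F' s.2) (fun s => (F s.1, F' s.2))
    (fun s => x s.1 + y s.2) (by
      intro s _ t _ hst
      rw [Prod.mk.injEq] at hst
      show F s.1 + F' s.2 = F t.1 + F' t.2
      rw [hst.1, hst.2])
  refine le_trans ?_ h1
  rw [chain (A ×ˢ B) (fun s => (F s.1, F' s.2)) (fun s => x s.1 + y s.2), chain A F x,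
    chain B F' y]
  set κ := 4 / Real.log (1 / θ) with hκ
  set Ea := ∑ u ∈ A, h (cl A F u) x with hEa
  set Eb := ∑ u ∈ B, h (cl B F' u) y with hEb
  have hEa0 : 0 ≤ Ea := sum_nonneg fun u _ => h_nonneg _ _
  have hEb0 : 0 ≤ Eb := sum_nonneg fun u _ => h_nonneg _ _
  rw [card_product, sum_product]
  push_cast
  rw [le_div_iff₀ (by positivity)]
  have h2 : ∀ u ∈ A, ∀ v ∈ B, (1 - κ) * (h (cl A F u) x + h (cl B F' v) y) -
      (if (nz (cl B F' v) y : ℝ) ≤ θ * fc B F' v then 0 else 1) * h (cl A F u) x ≤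
      h (cl (A ×ˢ B) (fun s => (F s.1, F' s.2)) (u, v)) (fun s => x s.1 + y s.2) := by
    intro u hu v hv
    rw [cl_prod]
    exact cell_gen_one (cl A F u) (cl B F' v) ⟨u, mem_cl.2 ⟨hu, rfl⟩⟩ ⟨v, mem_cl.2 ⟨hv, rfl⟩⟩
      x y hθ hθ1
  refine le_trans ?_ (sum_le_sum fun u hu => sum_le_sum fun v hv => h2 u hu v hv)
  have hmB := markov B F' y hθ hy
  set mB : ℝ := ((B.filter fun u => ¬ ((nz (cl B F' u) y : ℝ) ≤ θ * fc B F' u)).card : ℝ) with hmBd
  have sB : ∑ v ∈ B, (if (nz (cl B F' v) y : ℝ) ≤ θ * fc B F' v then (0 : ℝ) else 1) = mB := by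
    rw [sum_ite, sum_const_zero, zero_add, sum_const, nsmul_eq_mul, mul_one]
  have hev : ∑ u ∈ A, ∑ v ∈ B, ((1 - κ) * (h (cl A F u) x + h (cl B F' v) y) -
      (if (nz (cl B F' v) y : ℝ) ≤ θ * fc B F' v then 0 else 1) * h (cl A F u) x) =
      (1 - κ) * (B.card * Ea + A.card * Eb) - mB * Ea := by
    have inner : ∀ u ∈ A, ∑ v ∈ B, ((1 - κ) * (h (cl A F u) x + h (cl B F' v) y) -
      (if (nz (cl B F' v) y : ℝ) ≤ θ * fc B F' v then 0 else 1) * h (cl A F u) x) =
      (1 - κ) * (B.card * h (cl A F u) x + Eb) - mB * h (cl A F u) x := by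
      intro u _
      rw [sum_sub_distrib, ← mul_sum, sum_add_distrib, sum_const, nsmul_eq_mul,
        ← sum_mul, sB]
    rw [sum_congr rfl inner, sum_sub_distrib, ← mul_sum, sum_add_distrib,
      sum_const, nsmul_eq_mul, ← mul_sum, ← mul_sum]
  rw [hev]
  have e1 : mB * Ea ≤ τ / θ * B.card * Ea := mul_le_mul_of_nonneg_right hmB hEa0
  have e3 : (1 - κ - τ / θ) * (Ea / A.card + Eb / B.card) * (A.card * B.card) =
      (1 - κ) * (B.card * Ea + A.card * Eb) - τ / θ * B.card * Ea - τ / θ * A.card * Eb := by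
    field_simp
    ring
  rw [e3]
  have e4 : 0 ≤ τ / θ * A.card * Eb := by positivity
  linarith

/-- adding a coordinate, the trivial bounds -/
theorem step_triv [AddCommGroup M] [AddCommGroup V] (A : Finset α) (B : Finset β)
    (hA : A.Nonempty) (hB : B.Nonempty) (F : α → M) (F' : β → M) (x : α → V) (y : β → V) :
    (h A (fun u => (F u, x u)) - h A F ≤
      h (A ×ˢ B) (fun s => (F s.1 + F' s.2, x s.1 + y s.2)) -
        h (A ×ˢ B) (fun s => F s.1 + F' s.2)) ∧
    (h B (fun u => (F' u, y u)) - h B F' ≤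
      h (A ×ˢ B) (fun s => (F s.1 + F' s.2, x s.1 + y s.2)) -
        h (A ×ˢ B) (fun s => F s.1 + F' s.2)) := by
  have hAc : (0 : ℝ) < A.card := by exact_mod_cast card_pos.2 hA
  have hBc : (0 : ℝ) < B.card := by exact_mod_cast card_pos.2 hB
  have h1 := submod (A ×ˢ B) (fun s => F s.1 + F' s.2) (fun s => (F s.1, F' s.2))
    (fun s => x s.1 + y s.2) (by
      intro s _ t _ hst
      rw [Prod.mk.injEq] at hst
      show F s.1 + F' s.2 = F t.1 + F' t.2
      rw [hst.1, hst.2])
  rw [chain (A ×ˢ B) (fun s => (F s.1, F' s.2)) (fun s => x s.1 + y s.2)] at h1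
  rw [chain A F x, chain B F' y]
  have hcA : ∀ u ∈ A, ∀ v ∈ B, h (cl A F u) x ≤
      h (cl (A ×ˢ B) (fun s => (F s.1, F' s.2)) (u, v)) (fun s => x s.1 + y s.2) := by
    intro u hu v hv
    rw [cl_prod]
    exact cell_left _ _ ⟨v, mem_cl.2 ⟨hv, rfl⟩⟩ x y
  have hcB : ∀ u ∈ A, ∀ v ∈ B, h (cl B F' v) y ≤
      h (cl (A ×ˢ B) (fun s => (F s.1, F' s.2)) (u, v)) (fun s => x s.1 + y s.2) := by
    intro u hu v hv
    rw [cl_prod]
    exact cell_right _ _ ⟨u, mem_cl.2 ⟨hu, rfl⟩⟩ x y
  constructor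
  · refine le_trans ?_ h1
    rw [card_product, sum_product]
    push_cast
    rw [div_le_div_iff₀ hAc (by positivity)]
    have s1 := sum_le_sum fun u hu => sum_le_sum fun v hv => hcA u hu v hv
    simp only [sum_const, nsmul_eq_mul, ← mul_sum] at s1
    have := mul_le_mul_of_nonneg_left s1 hAc.le
    linarith
  · refine le_trans ?_ h1
    rw [card_product, sum_product]
    push_cast
    rw [div_le_div_iff₀ hBc (by positivity)]
    have s1 := sum_le_sum fun u hu => sum_le_sum fun v hv => hcB u hu v hv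
    simp only [sum_const, nsmul_eq_mul] at s1
    have := mul_le_mul_of_nonneg_left s1 hBc.le
    linarith

/-- **Two independent vectors, one-sided.** -/
theorem two_one [AddCommGroup V] (A : Finset α) (B : Finset β) (hA : A.Nonempty) (hB : B.Nonempty)
    (X : α → ι → V) (Y : β → ι → V) {τ θ : ℝ} (hθ : 0 < θ) (hθ1 : θ ≤ 1 / 9) (hτ : 0 ≤ τ)
    (T : Finset ι) (hY : ∀ p ∈ T, (nz B (fun b => Y b p) : ℝ) ≤ τ * B.card) :
    (1 - 4 / Real.log (1 / θ) - τ / θ) * (h A (mk T X) + h B (mk T Y)) ≤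
      h (A ×ˢ B) (mk T (fun s : α × β => X s.1 + Y s.2)) := by
  induction T using Finset.induction_on with
  | empty =>
    have e2 : h A (mk ∅ X) = 0 := by
      refine h_const _ _ fun x _ y _ => ?_
      rw [mk_eq_iff]
      intro p hp
      exact absurd hp (notMem_empty _)
    have e3 : h B (mk ∅ Y) = 0 := by
      refine h_const _ _ fun x _ y _ => ?_
      rw [mk_eq_iff]
      intro p hp
      exact absurd hp (notMem_empty _)
    rw [e2, e3, add_zero, mul_zero]
    exact h_nonneg _ _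
  | insert p T hp ih =>
    have ih' := ih (fun q hq => hY q (mem_insert_of_mem hq))
    have st := step_one A B hA hB (mk T X) (mk T Y) (fun a => X a p) (fun b => Y b p) hθ hθ1 hτ
      (hY p (mem_insert_self _ _))
    rw [h_mk_insert, h_mk_insert, h_mk_insert]
    have e1 : (fun s : α × β => (mk T X s.1 + mk T Y s.2, X s.1 p + Y s.2 p)) =
        fun s : α × β => (mk T (fun s : α × β => X s.1 + Y s.2) s,
          (fun s : α × β => X s.1 + Y s.2) s p) := by
      funext s
      rw [mk_add]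
      rfl
    have e2 : (fun s : α × β => mk T X s.1 + mk T Y s.2) =
        mk T (fun s : α × β => X s.1 + Y s.2) := by
      funext s
      rw [mk_add]
    rw [e1, e2] at st
    linarith

lemma h_mk_insert' [DecidableEq ι] [Zero V] (S : Finset α) (J : Finset ι) (p : ι)
    (X : α → ι → V) : h S (Y359.PE.mk (insert p J) X) = h S (fun u => (Y359.PE.mk J X u, X u p)) := by
  refine h_congr fun x _ y _ => ?_
  rw [mk_eq_iff, Prod.mk.injEq, mk_eq_iff]
  constructor
  · intro h
    exact ⟨fun q hq => h q (mem_insert_of_mem hq), h p (mem_insert_self _ _)⟩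
  · rintro ⟨h1, h2⟩ q hq
    rcases mem_insert.1 hq with rfl | h3
    · exact h2
    · exact h1 q h3

/-- adding further coordinates -/
theorem add_coords [DecidableEq ι] [AddCommGroup V] (A : Finset α) (B : Finset β) (hA : A.Nonempty)
    (hB : B.Nonempty) (X : α → ι → V) (Y : β → ι → V) (T P : Finset ι) :
    (h A (mk (P ∪ T) X) - h A (mk T X) ≤
      h (A ×ˢ B) (mk (P ∪ T) (fun s : α × β => X s.1 + Y s.2)) -
      h (A ×ˢ B) (mk T (fun s : α × β => X s.1 + Y s.2))) ∧
    (h B (mk (P ∪ T) Y) - h B (mk T Y) ≤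
      h (A ×ˢ B) (mk (P ∪ T) (fun s : α × β => X s.1 + Y s.2)) -
      h (A ×ˢ B) (mk T (fun s : α × β => X s.1 + Y s.2))) := by
  induction P using Finset.induction_on with
  | empty => simp
  | insert p P hp ih =>
    have st := step_triv A B hA hB (mk (P ∪ T) X) (mk (P ∪ T) Y) (fun a => X a p)
      (fun b => Y b p)
    rw [insert_union, h_mk_insert', h_mk_insert', h_mk_insert']
    have e1 : (fun s : α × β => (mk (P ∪ T) X s.1 + mk (P ∪ T) Y s.2, X s.1 p + Y s.2 p)) =
        fun s : α × β => (mk (P ∪ T) (fun s : α × β => X s.1 + Y s.2) s,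
          (fun s : α × β => X s.1 + Y s.2) s p) := by
      funext s
      rw [mk_add]
      rfl
    have e2 : (fun s : α × β => mk (P ∪ T) X s.1 + mk (P ∪ T) Y s.2) =
        mk (P ∪ T) (fun s : α × β => X s.1 + Y s.2) := by
      funext s
      rw [mk_add]
    rw [e1, e2] at st
    exact ⟨by linarith [ih.1, st.1], by linarith [ih.2, st.2]⟩

/-- the entropy of the valuations of a product -/
theorem log_card_mul (A B : Finset ℤ) (hA : A.Nonempty) (hB : B.Nonempty) (h0 : (0 : ℤ) ∉ A)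
    (h0' : (0 : ℤ) ∉ B) (T : Finset ℕ) (e e' : ℕ → ℕ) :
    h (A ×ˢ B) (mk T (fun s : ℤ × ℤ => X e s.1 + X e' s.2)) ≤ Real.log (A * B).card := by
  refine (h_le_log (hA.product hB) _).trans ?_
  have himg : (A ×ˢ B).image (mk T (fun s : ℤ × ℤ => X e s.1 + X e' s.2)) ⊆
      ((A ×ˢ B).image fun s => s.1 * s.2).image
      (fun m : ℤ => fun p => if p ∈ T then (fa m p : ℤ) - e p - e' p else 0) := by
    intro v hv
    rw [mem_image] at hv
    obtain ⟨b, hb, rfl⟩ := hv
    rw [mem_image]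
    refine ⟨b.1 * b.2, mem_image_of_mem (fun s : ℤ × ℤ => s.1 * s.2) hb, ?_⟩
    funext p
    unfold Y359.PE.mk
    split_ifs with hp
    · rw [fa_mul (fun h => h0 (h ▸ (mem_product.1 hb).1)) (fun h => h0' (h ▸ (mem_product.1 hb).2))]
      show _ = X e b.1 p + X e' b.2 p
      unfold X
      push_cast
      ring
    · rfl
  have hcard := (card_le_card himg).trans card_image_le
  rw [image_mul_eq] at hcard
  have hpos : (0 : ℝ) < ((A ×ˢ B).image (mk T (fun s : ℤ × ℤ => X e s.1 + X e' s.2))).card := by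
    exact_mod_cast card_pos.2 ((hA.product hB).image _)
  exact Real.log_le_log hpos (by exact_mod_cast hcard)

/-- **The entropy bound for products of two sets, one-sided.** -/
theorem prod_entropy_one (A B : Finset ℤ) (hA : A.Nonempty) (hB : B.Nonempty) (h0 : (0 : ℤ) ∉ A)
    (h0' : (0 : ℤ) ∉ B) (T P : Finset ℕ) (e e' : ℕ → ℕ) {L : ℝ} (hL : 1 < L)
    (hl : 9 < Real.log L)
    (hT' : ∀ p ∈ T, L * ((B.filter fun a => fa a p ≠ e' p).card : ℝ) ≤ B.card) :
    (1 - 9 / Real.log L) * (h A (mk T (X e)) + h B (mk T (X e'))) +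
      max (h A (mk (P ∪ T) (X e)) - h A (mk T (X e)))
        (h B (mk (P ∪ T) (X e')) - h B (mk T (X e'))) ≤ Real.log (A * B).card := by
  have hL0 : 0 < L := by linarith
  have hs : 0 < Real.sqrt L := Real.sqrt_pos.2 hL0
  have hlog := log_le_sqrt hL0
  have hl0 : 0 < Real.log L := by linarith
  have h9 : 1 / Real.sqrt L ≤ 1 / 9 := one_div_le_one_div_of_le (by norm_num) (by linarith)
  have h3 := two_one A B hA hB (X e) (X e') (τ := 1 / L) (θ := 1 / Real.sqrt L) (by positivity)
    h9 (by positivity) T (fun p hp => by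
      rw [nz_X]
      have := hT' p hp
      rw [one_div, ← div_eq_inv_mul, le_div_iff₀ hL0]
      linarith)
  have h4 := add_coords A B hA hB (X e) (X e') T P
  have h5 := log_card_mul A B hA hB h0 h0' (P ∪ T) e e'
  have h6 : 4 / Real.log (1 / (1 / Real.sqrt L)) + 1 / L / (1 / Real.sqrt L) ≤
      9 / Real.log L := by
    rw [one_div_one_div, Real.log_sqrt hL0.le]
    have e1 : 1 / L / (1 / Real.sqrt L) = 1 / Real.sqrt L := by
      have e2 : L = Real.sqrt L * Real.sqrt L := (Real.mul_self_sqrt hL0.le).symm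
      rw [div_div_eq_mul_div, div_one]
      rw [div_mul_eq_mul_div, div_eq_div_iff hL0.ne' hs.ne']
      rw [mul_assoc, ← e2]
    rw [e1]
    have e3 : 1 / Real.sqrt L ≤ 1 / Real.log L := one_div_le_one_div_of_le hl0 hlog
    have e4 : 4 / (Real.log L / 2) = 8 / Real.log L := by
      field_simp
      norm_num
    rw [e4]
    have e5 : 9 / Real.log L = 8 / Real.log L + 1 / Real.log L := by ring
    linarith
  have h7 : (1 - 9 / Real.log L) * (h A (mk T (X e)) + h B (mk T (X e'))) ≤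
      (1 - 4 / Real.log (1 / (1 / Real.sqrt L)) - 1 / L / (1 / Real.sqrt L)) *
        (h A (mk T (X e)) + h B (mk T (X e'))) :=
    mul_le_mul_of_nonneg_right (by linarith) (add_nonneg (h_nonneg _ _) (h_nonneg _ _))
  have h8 := max_le h4.1 h4.2
  linarith

end Pool.Agent.X66.SP
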