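import Mathlib
import Pool.Agent.X66.SP.One

/-!
# Products of an arbitrary set with a set (or multiset) without popular primes
-/

set_option autoImplicit false

namespace Pool.Agent.X66.SP

open Finset Pool.Agent.Y359.PE
open scoped Classical Pointwise

/-- the entropy of the valuations of a product, for multisets -/
theorem log_card_mul' {α β : Type*} (A : Finset α) (B : Finset β) (φ : α → ℤ) (ψ : β → ℤ)
    (hA : A.Nonempty) (hB : B.Nonempty) (h0 : ∀ a ∈ A, φ a ≠ 0)
    (h0' : ∀ b ∈ B, ψ b ≠ 0) (T : Finset ℕ) (e e' : ℕ → ℕ) :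
    h (A ×ˢ B) (Y359.PE.mk T (fun s : α × β => X e (φ s.1) + X e' (ψ s.2))) ≤
      Real.log (A.image φ * B.image ψ).card := by
  refine (h_le_log (hA.product hB) _).trans ?_
  have himg : (A ×ˢ B).image (Y359.PE.mk T (fun s : α × β => X e (φ s.1) + X e' (ψ s.2))) ⊆
      (A.image φ * B.image ψ).image
      (fun m : ℤ => fun p => if p ∈ T then (fa m p : ℤ) - e p - e' p else 0) := by
    intro v hv
    rw [mem_image] at hv
    obtain ⟨b, hb, rfl⟩ := hv
    rw [mem_product] at hb
    rw [mem_image]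
    refine ⟨φ b.1 * ψ b.2, mul_mem_mul (mem_image_of_mem _ hb.1) (mem_image_of_mem _ hb.2), ?_⟩
    funext p
    unfold Y359.PE.mk
    split_ifs with hp
    · rw [fa_mul (h0 _ hb.1) (h0' _ hb.2)]
      show _ = X e (φ b.1) p + X e' (ψ b.2) p
      unfold X
      push_cast
      ring
    · rfl
  have hcard := (card_le_card himg).trans card_image_le
  have hpos : (0 : ℝ) <
      ((A ×ˢ B).image (Y359.PE.mk T (fun s : α × β => X e (φ s.1) + X e' (ψ s.2)))).card := by
    exact_mod_cast card_pos.2 ((hA.product hB).image _)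
  exact Real.log_le_log hpos (by exact_mod_cast hcard)

/-- the loss for the parameter `L` -/
lemma params_one {L : ℝ} (hL : 1 < L) (hl : 9 < Real.log L) :
    0 < 1 / Real.sqrt L ∧ 1 / Real.sqrt L ≤ 1 / 9 ∧
    4 / Real.log (1 / (1 / Real.sqrt L)) + 1 / L / (1 / Real.sqrt L) ≤ 9 / Real.log L := by
  have hL0 : 0 < L := by linarith
  have hs : 0 < Real.sqrt L := Real.sqrt_pos.2 hL0
  have hlog := log_le_sqrt hL0
  have hl0 : 0 < Real.log L := by linarith
  refine ⟨by positivity, one_div_le_one_div_of_le (by norm_num) (by linarith), ?_⟩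
  rw [one_div_one_div, Real.log_sqrt hL0.le]
  have e1 : 1 / L / (1 / Real.sqrt L) = 1 / Real.sqrt L := by
    have e2 : L = Real.sqrt L * Real.sqrt L := (Real.mul_self_sqrt hL0.le).symm
    rw [div_div_eq_mul_div, div_one]
    rw [div_mul_eq_mul_div, div_eq_div_iff hL0.ne' hs.ne']
    rw [mul_assoc, ← e2]
  rw [e1]
  have e3 : 1 / Real.sqrt L ≤ 1 / Real.log L := one_div_le_one_div_of_le hl0 hlog
  have e4 : 4 / (Real.log L / 2) = 8 / Real.log L := by
    field_simp
    norm_num
  rw [e4]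
  have e5 : 9 / Real.log L = 8 / Real.log L + 1 / Real.log L := by ring
  linarith

/-- **The entropy bound, one-sided, for multisets.** -/
theorem prod_entropy_one' {α β : Type*} (A : Finset α) (B : Finset β) (φ : α → ℤ) (ψ : β → ℤ)
    (hA : A.Nonempty) (hB : B.Nonempty) (h0 : ∀ a ∈ A, φ a ≠ 0) (h0' : ∀ b ∈ B, ψ b ≠ 0)
    (T P : Finset ℕ) (e e' : ℕ → ℕ) {L : ℝ} (hL : 1 < L) (hl : 9 < Real.log L)
    (hT' : ∀ p ∈ T, L * ((B.filter fun a => fa (ψ a) p ≠ e' p).card : ℝ) ≤ B.card) :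
    (1 - 9 / Real.log L) * (h A (Y359.PE.mk T fun a => X e (φ a)) +
        h B (Y359.PE.mk T fun b => X e' (ψ b))) +
      max (h A (Y359.PE.mk (P ∪ T) fun a => X e (φ a)) - h A (Y359.PE.mk T fun a => X e (φ a)))
        (h B (Y359.PE.mk (P ∪ T) fun b => X e' (ψ b)) - h B (Y359.PE.mk T fun b => X e' (ψ b))) ≤
      Real.log (A.image φ * B.image ψ).card := by
  obtain ⟨p1, p2, p3⟩ := params_one hL hl
  have hL0 : 0 < L := by linarith
  have h3 := two_one A B hA hB (fun a => X e (φ a)) (fun b => X e' (ψ b)) (τ := 1 / L)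
    (θ := 1 / Real.sqrt L) p1 p2 (by positivity) T (fun p hp => by
      have e1 : nz B (fun b => X e' (ψ b) p) = (B.filter fun a => fa (ψ a) p ≠ e' p).card := by
        refine nz_eq _ _ _ fun a => ?_
        rw [mem_filter]
        refine and_congr_right fun _ => ?_
        show fa (ψ a) p ≠ e' p ↔ (fa (ψ a) p : ℤ) - e' p ≠ 0
        omega
      rw [e1]
      have := hT' p hp
      rw [one_div, ← div_eq_inv_mul, le_div_iff₀ hL0]
      linarith)
  have h4 := add_coords A B hA hB (fun a => X e (φ a)) (fun b => X e' (ψ b)) T P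
  have h5 := log_card_mul' A B φ ψ hA hB h0 h0' (P ∪ T) e e'
  have h7 : (1 - 9 / Real.log L) * (h A (Y359.PE.mk T fun a => X e (φ a)) +
      h B (Y359.PE.mk T fun b => X e' (ψ b))) ≤
      (1 - 4 / Real.log (1 / (1 / Real.sqrt L)) - 1 / L / (1 / Real.sqrt L)) *
        (h A (Y359.PE.mk T fun a => X e (φ a)) + h B (Y359.PE.mk T fun b => X e' (ψ b))) :=
    mul_le_mul_of_nonneg_right (by linarith) (add_nonneg (h_nonneg _ _) (h_nonneg _ _))
  have h8 := max_le h4.1 h4.2
  linarith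

/-- the classes of all valuations -/
lemma fc_all (A : Finset ℤ) (h0 : (0 : ℤ) ∉ A) (T : Finset ℕ) (hT : pr A ⊆ T) (e : ℕ → ℕ)
    {x : ℤ} (hx : x ∈ A) : fc A (Y359.PE.mk T (X e)) x ≤ 2 := by
  refine le_trans (card_le_card ?_) (fc_le_two A h0 e hx)
  intro y hy
  rw [mem_cl, mk_X_eq_iff] at hy ⊢
  exact ⟨hy.1, fun p hp => hy.2 p (hT hp)⟩

/-- the classes in a multiset -/
lemma fc_multi {β : Type*} (B : Finset β) (ψ : β → ℤ) (h0 : ∀ b ∈ B, ψ b ≠ 0) (P T : Finset ℕ)
    (hP : ∀ p ∈ P, p.Prime) (hT : ∀ p, p ∉ P → p ∉ T → ∀ b ∈ B, fa (ψ b) p = 0) (e : ℕ → ℕ)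
    (F : ℕ) (hF : ∀ z, (B.filter fun y => ψ y = z).card ≤ F) (x : β) :
    fc B (Y359.PE.mk T fun b => X e (ψ b)) x ≤ 2 * ((B.image ψ).image (pt P)).card * F := by
  unfold fc
  have h1 : (cl B (Y359.PE.mk T fun b => X e (ψ b)) x).card ≤
      ∑ z ∈ (cl B (Y359.PE.mk T fun b => X e (ψ b)) x).image ψ,
        (B.filter fun y => ψ y = z).card := by
    refine (card_le_card ?_).trans card_biUnion_le
    intro y hy
    exact mem_biUnion.2 ⟨ψ y, mem_image_of_mem _ hy, mem_filter.2 ⟨(mem_cl.1 hy).1, rfl⟩⟩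
  have h2 : ((cl B (Y359.PE.mk T fun b => X e (ψ b)) x).image ψ).card ≤
      2 * ((B.image ψ).image (pt P)).card := by
    have h3 : ((cl B (Y359.PE.mk T fun b => X e (ψ b)) x).image ψ).card ≤
        ((univ : Finset Bool) ×ˢ ((B.image ψ).image (pt P))).card := by
      refine card_le_card_of_injOn (fun y => (decide (0 < y), pt P y)) ?_ ?_
      · intro y hy
        obtain ⟨b, hb, rfl⟩ := mem_image.1 (mem_coe.1 hy)
        rw [mem_coe, mem_product]
        exact ⟨mem_univ _, mem_image_of_mem _ (mem_image_of_mem _ (mem_cl.1 hb).1)⟩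
      · intro y hy z hz hyz
        obtain ⟨b, hb, rfl⟩ := mem_image.1 (mem_coe.1 hy)
        obtain ⟨c, hc, rfl⟩ := mem_image.1 (mem_coe.1 hz)
        rw [mem_cl] at hb hc
        have hb2 := mk_eq_iff.1 hb.2
        have hc2 := mk_eq_iff.1 hc.2
        rw [Prod.mk.injEq] at hyz
        have hs : (0 < ψ b ↔ 0 < ψ c) := by
          have := hyz.1
          rw [decide_eq_decide] at this
          exact this
        refine eq_of_fa (h0 b hb.1) (h0 c hc.1) hs ?_
        intro p
        by_cases hp : p ∈ P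
        · exact fa_eq_of_pt hP hyz.2 hp
        · by_cases hp2 : p ∈ T
          · have e1 := (hb2 p hp2).trans (hc2 p hp2).symm
            unfold X at e1
            have : (fa (ψ b) p : ℤ) = fa (ψ c) p := by linarith
            exact_mod_cast this
          · rw [hT p hp hp2 b hb.1, hT p hp hp2 c hc.1]
    refine h3.trans (le_of_eq ?_)
    rw [card_product, card_univ, Fintype.card_bool]
  refine h1.trans ?_
  calc ∑ z ∈ (cl B (Y359.PE.mk T fun b => X e (ψ b)) x).image ψ, (B.filter fun y => ψ y = z).card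
      ≤ ∑ z ∈ (cl B (Y359.PE.mk T fun b => X e (ψ b)) x).image ψ, F := sum_le_sum fun z _ => hF z
    _ = ((cl B (Y359.PE.mk T fun b => X e (ψ b)) x).image ψ).card * F := by
      rw [sum_const, smul_eq_mul]
    _ ≤ _ := Nat.mul_le_mul_right _ h2

/-- the entropy bound with the whole entropy of `A` -/
theorem main_one {β : Type*} (A : Finset ℤ) (B : Finset β) (ψ : β → ℤ)
    (hA : A.Nonempty) (hB : B.Nonempty) (h0 : (0 : ℤ) ∉ A) (h0' : ∀ b ∈ B, ψ b ≠ 0)
    (T P : Finset ℕ) (e' : ℕ → ℕ) {L : ℝ} (hL : 1 < L) (hl : 9 < Real.log L)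
    (hT' : ∀ p ∈ T, L * ((B.filter fun a => fa (ψ a) p ≠ e' p).card : ℝ) ≤ B.card) :
    (1 - 9 / Real.log L) * (h A (Y359.PE.mk (P ∪ T) (X fun _ => 0)) +
        h B (Y359.PE.mk T fun b => X e' (ψ b))) ≤ Real.log (A * B.image ψ).card := by
  have hl0 : 0 < Real.log L := by linarith
  have main := prod_entropy_one' A B (fun a => a) ψ hA hB (fun a ha h => h0 (h ▸ ha)) h0' T P
    (fun _ => 0) e' hL hl hT'
  rw [show A.image (fun a => a) = A from image_id] at main
  refine le_trans ?_ main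
  have e1 : h A (Y359.PE.mk T fun a => X (fun _ => 0) a) ≤
      h A (Y359.PE.mk (P ∪ T) fun a => X (fun _ => 0) a) := by
    have s2 : h A (fun x => (Y359.PE.mk T (fun a => X (fun _ => 0) a) x,
        Y359.PE.mk (P ∪ T) (fun a => X (fun _ => 0) a) x)) =
        h A (Y359.PE.mk (P ∪ T) fun a => X (fun _ => 0) a) := by
      refine h_congr fun x _ y _ => ?_
      rw [Prod.mk.injEq, mk_eq_iff, mk_eq_iff]
      exact ⟨fun h => h.2, fun h => ⟨fun p hp => h p (mem_union_right _ hp), h⟩⟩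
    have s3 : h A (fun x => (Y359.PE.mk T (fun a => X (fun _ => 0) a) x,
        Y359.PE.mk (P ∪ T) (fun a => X (fun _ => 0) a) x)) -
        h A (Y359.PE.mk T fun a => X (fun _ => 0) a) =
        (∑ x ∈ A, h (cl A (Y359.PE.mk T fun a => X (fun _ => 0) a) x)
          (Y359.PE.mk (P ∪ T) fun a => X (fun _ => 0) a)) / A.card := chain A _ _
    have s4 : 0 ≤ (∑ x ∈ A, h (cl A (Y359.PE.mk T fun a => X (fun _ => 0) a) x)
          (Y359.PE.mk (P ∪ T) fun a => X (fun _ => 0) a)) / A.card :=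
      div_nonneg (sum_nonneg fun _ _ => h_nonneg _ _) (by positivity)
    linarith
  have e2 := le_max_left
    (h A (Y359.PE.mk (P ∪ T) fun a => X (fun _ => 0) a) -
      h A (Y359.PE.mk T fun a => X (fun _ => 0) a))
    (h B (Y359.PE.mk (P ∪ T) fun b => X e' (ψ b)) -
      h B (Y359.PE.mk T fun b => X e' (ψ b)))
  have e3 : 0 ≤ 9 / Real.log L := by positivity
  set HA' := h A (Y359.PE.mk T fun a => X (fun _ => 0) a) with hHA'
  set HA := h A (Y359.PE.mk (P ∪ T) (X fun _ => 0)) with hHA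
  have e5 : 0 ≤ 9 / Real.log L * (HA - HA') := mul_nonneg e3 (by linarith)
  have e6 : (1 - 9 / Real.log L) * (HA + h B (Y359.PE.mk T fun b => X e' (ψ b))) =
      (1 - 9 / Real.log L) * (HA' + h B (Y359.PE.mk T fun b => X e' (ψ b))) + (HA - HA') -
      9 / Real.log L * (HA - HA') := by ring
  rw [e6]
  linarith

/-- **The general inequality**, for an arbitrary set and a multiset -/
theorem general_one {β : Type*} (L : ℝ) (hL : 1 < L) (A : Finset ℤ) (B : Finset β) (ψ : β → ℤ)
    (hA : A.Nonempty) (hB : B.Nonempty) (h0 : (0 : ℤ) ∉ A) (h0' : ∀ b ∈ B, ψ b ≠ 0)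
    (T : Finset ℕ) (e' : ℕ → ℕ)
    (hT' : ∀ p ∈ T, L * ((B.filter fun a => fa (ψ a) p ≠ e' p).card : ℝ) ≤ B.card) :
    (1 - 9 / Real.log L) * (Real.log A.card + h B (Y359.PE.mk T fun b => X e' (ψ b))) ≤
      Real.log 2 + Real.log (A * B.image ψ).card := by
  have hl0 : 0 < Real.log L := Real.log_pos hL
  have hN1 : (1 : ℝ) ≤ A.card := by exact_mod_cast card_pos.2 hA
  have hlA : 0 ≤ Real.log A.card := Real.log_nonneg hN1
  have hhB : 0 ≤ h B (Y359.PE.mk T fun b => X e' (ψ b)) := h_nonneg _ _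
  have hP1 : (1 : ℝ) ≤ (A * B.image ψ).card := by
    exact_mod_cast card_pos.2 (hA.mul (hB.image _))
  have hl2 : 0 ≤ Real.log 2 := Real.log_nonneg (by norm_num)
  have hlP : 0 ≤ Real.log (A * B.image ψ).card := Real.log_nonneg hP1
  rcases le_or_gt (1 : ℝ) (9 / Real.log L) with hc | hc
  · have h1 : (1 - 9 / Real.log L) * (Real.log A.card +
        h B (Y359.PE.mk T fun b => X e' (ψ b))) ≤ 0 :=
      mul_nonpos_of_nonpos_of_nonneg (by linarith) (by linarith)
    linarith
  · rw [div_lt_iff₀ hl0, one_mul] at hc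
    have main := main_one A B ψ hA hB h0 h0' T (pr A) e' hL hc hT'
    have hhA := h_ge_short A A hA (Y359.PE.mk (pr A ∪ T) (X fun _ => 0)) (Subset.refl _) (F := 2)
      (fun x hx => by exact_mod_cast fc_all A h0 (pr A ∪ T) subset_union_left _ hx)
    rw [div_self (by linarith), one_mul] at hhA
    have hE0 : 0 ≤ 1 - 9 / Real.log L := by
      have : 9 / Real.log L ≤ 1 := by
        rw [div_le_one hl0]
        exact hc.le
      linarith
    have hE1 : 1 - 9 / Real.log L ≤ 1 := by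
      have : 0 ≤ 9 / Real.log L := by positivity
      linarith
    have s3 := mul_le_mul_of_nonneg_left (add_le_add_left hhA
      (h B (Y359.PE.mk T fun b => X e' (ψ b)))) hE0
    have s4 : (1 - 9 / Real.log L) * Real.log 2 ≤ Real.log 2 := mul_le_of_le_one_left hl2 hE1
    linarith

/-- **Theorem 1: one set arbitrary.** -/
theorem one_sided {β : Type*} (L : ℝ) (hL : 1 < L) (A : Finset ℤ) (B : Finset β) (ψ : β → ℤ)
    (hA : A.Nonempty) (hB : B.Nonempty) (h0 : (0 : ℤ) ∉ A) (h0' : ∀ b ∈ B, ψ b ≠ 0)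
    (F : ℕ) (hF : ∀ z, (B.filter fun y => ψ y = z).card ≤ F)
    (P : Finset ℕ) (hP : ∀ p ∈ P, p.Prime)
    (hpop : ∀ p : ℕ, p.Prime → p ∉ P →
      ∃ e : ℕ, L * ((B.filter fun b => fa (ψ b) p ≠ e).card : ℝ) ≤ B.card) :
    ((A.card : ℝ) * B.card) ^ (1 - 9 / Real.log L) ≤
      4 * ((B.image ψ).image (pt P)).card * F * (A * B.image ψ).card := by
  have hl0 : 0 < Real.log L := Real.log_pos hL
  have hN1 : (1 : ℝ) ≤ A.card := by exact_mod_cast card_pos.2 hA
  have hN1' : (1 : ℝ) ≤ B.card := by exact_mod_cast card_pos.2 hB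
  have hN : (1 : ℝ) ≤ (A.card : ℝ) * B.card := by nlinarith
  have hBi : (B.image ψ).Nonempty := hB.image _
  have hP1 : (1 : ℝ) ≤ (A * B.image ψ).card := by exact_mod_cast card_pos.2 (hA.mul hBi)
  have hD1 : (1 : ℝ) ≤ ((B.image ψ).image (pt P)).card := by
    exact_mod_cast card_pos.2 (hBi.image _)
  have hF1 : (1 : ℝ) ≤ F := by
    obtain ⟨b, hb⟩ := hB
    have : 1 ≤ (B.filter fun y => ψ y = ψ b).card := card_pos.2 ⟨b, mem_filter.2 ⟨hb, rfl⟩⟩
    exact_mod_cast this.trans (hF _)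
  set D : ℝ := (((B.image ψ).image (pt P)).card : ℝ) with hD
  have hDF : 1 ≤ D * F := by nlinarith
  rcases le_or_gt (1 : ℝ) (9 / Real.log L) with hc | hc
  · have h1 : ((A.card : ℝ) * B.card) ^ (1 - 9 / Real.log L) ≤ 1 :=
      Real.rpow_le_one_of_one_le_of_nonpos hN (by linarith)
    have h2 : 1 ≤ D * F * (A * B.image ψ).card := by nlinarith
    nlinarith
  · rw [div_lt_iff₀ hl0, one_mul] at hc
    choose! e' he' using hpop
    set T := pr (A ∪ B.image ψ) \ P with hT
    have hTA : pr A ⊆ P ∪ T := by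
      intro p hp
      rw [hT, mem_union, mem_sdiff]
      by_cases h : p ∈ P
      · exact Or.inl h
      · obtain ⟨a, ha, hpa⟩ := mem_biUnion.1 hp
        exact Or.inr ⟨mem_biUnion.2 ⟨a, mem_union_left _ ha, hpa⟩, h⟩
    have hTB : ∀ p, p ∉ P → p ∉ T → ∀ b ∈ B, fa (ψ b) p = 0 := by
      intro p hp hpT b hb
      refine fa_eq_zero (mem_union_right A (mem_image_of_mem ψ hb)) fun h => hpT ?_
      exact mem_sdiff.2 ⟨h, hp⟩
    have main' := main_one A B ψ hA hB h0 h0' T P e' hL hc (fun p hp =>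
      he' p (prime_of_mem_pr (mem_sdiff.1 hp).1) (mem_sdiff.1 hp).2)
    have hhA := h_ge_short A A hA (Y359.PE.mk (P ∪ T) (X fun _ => 0)) (Subset.refl _) (F := 2)
      (fun x hx => by exact_mod_cast fc_all A h0 (P ∪ T) hTA _ hx)
    have hhB := h_ge_short B B hB (Y359.PE.mk T fun b => X e' (ψ b)) (Subset.refl _)
      (F := 2 * D * F) (fun x _ => by
      rw [hD]
      exact_mod_cast fc_multi B ψ h0' P T hP hTB e' F hF x)
    rw [div_self (by linarith), one_mul] at hhA hhB
    set HA := h A (Y359.PE.mk (P ∪ T) (X fun _ => 0)) with hHA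
    set HB := h B (Y359.PE.mk T fun b => X e' (ψ b)) with hHB
    set E := 1 - 9 / Real.log L with hEd
    have hE0 : 0 ≤ E := by
      have : 9 / Real.log L ≤ 1 := by
        rw [div_le_one hl0]
        exact hc.le
      linarith
    have hE1 : E ≤ 1 := by
      have : 0 ≤ 9 / Real.log L := by positivity
      linarith
    have hlD : Real.log (4 * D * F * (A * B.image ψ).card) = Real.log 2 + Real.log (2 * D * F) +
        Real.log (A * B.image ψ).card := by
      have e1 : 4 * D * F * ((A * B.image ψ).card : ℝ) = 2 * (2 * D * F) *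
        (A * B.image ψ).card := by ring
      rw [e1, Real.log_mul (by positivity) (by positivity),
        Real.log_mul (by positivity) (by positivity)]
    have hl1 : 0 ≤ Real.log 2 := Real.log_nonneg (by norm_num)
    have hl2 : 0 ≤ Real.log (2 * D * F) := Real.log_nonneg (by nlinarith)
    have s3 := mul_le_mul_of_nonneg_left (add_le_add hhA hhB) hE0
    have s4 : E * (Real.log 2 + Real.log (2 * D * F)) ≤ Real.log 2 + Real.log (2 * D * F) :=
      mul_le_of_le_one_left (by linarith) hE1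
    have hN0 : (0 : ℝ) < (A.card : ℝ) * B.card := by linarith
    rw [← Real.log_le_log_iff (Real.rpow_pos_of_pos hN0 _) (by positivity), Real.log_rpow hN0, hlD,
      Real.log_mul (by positivity) (by positivity)]
    linarith

end Pool.Agent.X66.SP
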