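import Mathlib
import Pool.Agent.X66.SP.Main
import Pool.Agent.Y359.PE.PairRuns
import Pool.Agent.Y359.PE.Runs

/-!
# Products of an arbitrary set with a set in which every prime power divides few elements
-/

set_option autoImplicit false

namespace Pool.Agent.X66.SP

open Finset Pool.Agent.Y359.PE
open scoped Classical Pointwise

/-- removing the elements divisible by high powers of small primes, in a multiset -/
lemma reduce' {β : Type*} (ψ : β → ℤ) {K : ℝ} (hK : 1 ≤ K) {m : ℕ} (hm4 : 4 * K ≤ m) (hm1 : 4 ≤ m)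
    (A : Finset β)
    (hA : A.Nonempty) (hq : ∀ q : ℕ, IsPrimePow q →
      ((A.filter fun a => (q : ℤ) ∣ ψ a).card : ℝ) ≤ (K / q + 1 / (m : ℝ) ^ 2) * A.card) :
    ∃ A₁ ⊆ A, (∀ a ∈ A₁, ψ a ≠ 0) ∧ (A.card : ℝ) ≤ 2 * A₁.card ∧
      (∀ a ∈ A₁, ∀ p ∈ (range (m + 1)).filter Nat.Prime, fa (ψ a) p < m ^ 2) ∧
      ∀ p : ℕ, p.Prime → p ∉ (range (m + 1)).filter Nat.Prime →
        (m : ℝ) / (4 * K) * ((A₁.filter fun a => fa (ψ a) p ≠ (0 : ℕ)).card : ℝ) ≤ A₁.card := by
  have hm0 : (0 : ℝ) < m := by linarith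
  set P : Finset ℕ := (range (m + 1)).filter Nat.Prime with hP
  set J : ℕ := m ^ 2 with hJ
  have hN0 : (0 : ℝ) < A.card := by exact_mod_cast card_pos.2 hA
  set R : Finset β := P.biUnion fun p => A.filter fun a => ((p ^ J : ℕ) : ℤ) ∣ ψ a with hR
  have hRc : (R.card : ℝ) ≤ A.card / 2 := by
    have h1 : (R.card : ℝ) ≤ ∑ p ∈ P, ((A.filter fun a => ((p ^ J : ℕ) : ℤ) ∣ ψ a).card : ℝ) := by
      exact_mod_cast card_biUnion_le
    have h2 : ∀ p ∈ P, ((A.filter fun a => ((p ^ J : ℕ) : ℤ) ∣ ψ a).card : ℝ) ≤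
        2 * K / (m : ℝ) ^ 2 * A.card := by
      intro p hp
      have hpp : p.Prime := (mem_filter.1 hp).2
      have hJ0 : J ≠ 0 := by
        rw [hJ]
        exact pow_ne_zero _ (by omega)
      have h3 := hq (p ^ J) (hpp.isPrimePow.pow hJ0)
      refine h3.trans ?_
      have h4 : (m : ℝ) ^ 2 ≤ ((p ^ J : ℕ) : ℝ) := by
        have h5 : J ≤ p ^ J := (Nat.lt_pow_self hpp.one_lt).le
        have h6 : m ^ 2 ≤ p ^ J := by
          rw [← hJ]
          exact h5
        exact_mod_cast h6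
      have h7 : K / ((p ^ J : ℕ) : ℝ) ≤ K / (m : ℝ) ^ 2 :=
        div_le_div_of_nonneg_left (by linarith) (by positivity) h4
      have h8 : 1 / (m : ℝ) ^ 2 ≤ K / (m : ℝ) ^ 2 := by gcongr
      have h9 : K / ((p ^ J : ℕ) : ℝ) + 1 / (m : ℝ) ^ 2 ≤ 2 * K / (m : ℝ) ^ 2 := by
        have : 2 * K / (m : ℝ) ^ 2 = K / (m : ℝ) ^ 2 + K / (m : ℝ) ^ 2 := by ring
        linarith
      exact mul_le_mul_of_nonneg_right h9 hN0.le
    have hPc : (P.card : ℝ) ≤ m := by
      have h10 : P ⊆ (range (m + 1)).erase 0 := by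
        intro p hp
        rw [mem_erase]
        exact ⟨(mem_filter.1 hp).2.ne_zero, (mem_filter.1 hp).1⟩
      have h11 := card_le_card h10
      rw [card_erase_of_mem (mem_range.2 (by omega)), card_range] at h11
      exact_mod_cast h11
    have h12 := h1.trans (sum_le_sum h2)
    rw [sum_const, nsmul_eq_mul] at h12
    refine h12.trans ?_
    have h13 : (P.card : ℝ) * (2 * K / (m : ℝ) ^ 2 * A.card) ≤
        m * (2 * K / (m : ℝ) ^ 2 * A.card) := mul_le_mul_of_nonneg_right hPc (by positivity)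
    refine h13.trans ?_
    have h14 : m * (2 * K / (m : ℝ) ^ 2 * A.card) = (2 * K / m) * A.card := by
      field_simp
    rw [h14]
    have h15 : 2 * K / m ≤ 1 / 2 := by
      rw [div_le_iff₀ hm0]
      linarith
    nlinarith only [h15, hN0]
  set A₁ := A \ R with hA₁
  have hA₁A : A₁ ⊆ A := sdiff_subset
  have hcard : (A.card : ℝ) / 2 ≤ A₁.card := by
    have h1 : A.card - R.card ≤ A₁.card := le_card_sdiff _ _
    have h2 : (A.card : ℝ) ≤ A₁.card + R.card := by
      have : A.card ≤ A₁.card + R.card := by omega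
      exact_mod_cast this
    linarith
  have h2P : 2 ∈ P := mem_filter.2 ⟨mem_range.2 (by omega), Nat.prime_two⟩
  have hnotR : ∀ a ∈ A₁, ∀ p ∈ P, ¬ ((p ^ J : ℕ) : ℤ) ∣ ψ a := by
    intro a ha p hp hd
    rw [hA₁, mem_sdiff] at ha
    exact ha.2 (mem_biUnion.2 ⟨p, hp, mem_filter.2 ⟨ha.1, hd⟩⟩)
  have h0 : ∀ a ∈ A₁, ψ a ≠ 0 := fun a ha h => hnotR a ha 2 h2P (by rw [h]; exact dvd_zero _)
  refine ⟨A₁, hA₁A, h0, by linarith, ?_, ?_⟩
  · intro a ha p hp
    by_contra h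
    exact hnotR a ha p hp ((le_fa_iff (h0 a ha) (mem_filter.1 hp).2 J).1 (not_lt.1 h))
  · intro p hpp hpP
    have hpm : m < p := by
      by_contra h
      exact hpP (mem_filter.2 ⟨mem_range.2 (by omega), hpp⟩)
    have h1 := hq p hpp.isPrimePow
    have h2 : ((A₁.filter fun a => fa (ψ a) p ≠ (0 : ℕ)).card : ℝ) ≤
        ((A.filter fun a => (p : ℤ) ∣ ψ a).card : ℝ) := by
      have : (A₁.filter fun a => fa (ψ a) p ≠ (0 : ℕ)) ⊆ A.filter fun a => (p : ℤ) ∣ ψ a := by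
        intro a ha
        rw [mem_filter] at ha ⊢
        refine ⟨hA₁A ha.1, ?_⟩
        have := (le_fa_iff (h0 a ha.1) hpp 1).1 (Nat.one_le_iff_ne_zero.2 ha.2)
        simpa using this
      exact_mod_cast card_le_card this
    have h3 : K / (p : ℝ) + 1 / (m : ℝ) ^ 2 ≤ 2 * K / m := by
      have h4 : K / (p : ℝ) ≤ K / m :=
        div_le_div_of_nonneg_left (by linarith) hm0 (by exact_mod_cast hpm.le)
      have h5 : 1 / (m : ℝ) ^ 2 ≤ K / m := by
        rw [div_le_div_iff₀ (by positivity) hm0]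
        have : (1 : ℝ) ≤ m := by linarith
        nlinarith [mul_le_mul_of_nonneg_right hK (show (0 : ℝ) ≤ (m : ℝ) ^ 2 by positivity)]
      have : 2 * K / (m : ℝ) = K / m + K / m := by ring
      linarith
    have h6 : ((A₁.filter fun a => fa (ψ a) p ≠ (0 : ℕ)).card : ℝ) ≤ 2 * K / m * A.card :=
      h2.trans (h1.trans (mul_le_mul_of_nonneg_right h3 hN0.le))
    have h7 := mul_le_mul_of_nonneg_left h6 (show 0 ≤ (m : ℝ) / (4 * K) by positivity)
    refine h7.trans ?_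
    have h8 : (m : ℝ) / (4 * K) * (2 * K / m * A.card) = A.card / 2 := by
      field_simp
      ring
    rw [h8]
    exact hcard

/-- **An arbitrary set and a multiset in which every prime power divides few elements.** -/
theorem primepow_one (K ε : ℝ) (hK : 1 ≤ K) (hε : 0 < ε) (hε1 : ε ≤ 1) :
    ∃ L c : ℝ, 1 ≤ L ∧ 0 < c ∧ ∀ (β : Type) (A : Finset ℤ) (B : Finset β) (ψ : β → ℤ) (F : ℕ),
      A.Nonempty → (0 : ℤ) ∉ A → B.Nonempty → (∀ z, (B.filter fun y => ψ y = z).card ≤ F) →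
      (∀ q : ℕ, IsPrimePow q →
        ((B.filter fun b => (q : ℤ) ∣ ψ b).card : ℝ) ≤ (K / q + 1 / L) * B.card) →
      c * ((A.card : ℝ) * B.card) ^ (1 - ε) ≤ F * (A * B.image ψ).card := by
  have hlim : Filter.Tendsto (fun n : ℕ => Real.log ((n : ℝ) / (4 * K))) Filter.atTop
      Filter.atTop :=
    Real.tendsto_log_atTop.comp (tendsto_natCast_atTop_atTop.atTop_div_const (by positivity))
  obtain ⟨M, hM⟩ := (Filter.tendsto_atTop.1 hlim (9 + 9 / ε)).exists_forall_of_atTop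
  set m : ℕ := max M (⌈4 * K⌉₊ + 4) with hm
  have hmM : M ≤ m := le_max_left _ _
  have hm4 : 4 * K ≤ m := (Nat.le_ceil _).trans (by
    have : ⌈4 * K⌉₊ ≤ m := by omega
    exact_mod_cast this)
  have hlog := hM m hmM
  have hm0 : (0 : ℝ) < m := by linarith
  have hm1 : 4 ≤ m := by omega
  have h5ε : 0 < 9 / ε := by positivity
  have hl5 : 9 < Real.log ((m : ℝ) / (4 * K)) := by linarith
  have hΛ0 : 0 < (m : ℝ) / (4 * K) := by positivity
  have hΛ1 : 1 < (m : ℝ) / (4 * K) := by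
    by_contra h
    have := Real.log_nonpos hΛ0.le (not_lt.1 h)
    linarith
  have hle : 9 / Real.log ((m : ℝ) / (4 * K)) ≤ ε := by
    rw [div_le_iff₀ (by linarith)]
    have h1 : 9 / ε ≤ Real.log ((m : ℝ) / (4 * K)) := by linarith
    rw [div_le_iff₀ hε] at h1
    linarith
  set P : Finset ℕ := (range (m + 1)).filter Nat.Prime with hP
  set D : ℝ := ((m ^ 2 : ℕ) : ℝ) ^ P.card with hD
  have hD1 : 1 ≤ D := by
    refine one_le_pow₀ ?_
    exact_mod_cast Nat.one_le_pow _ _ (by omega)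
  refine ⟨(m : ℝ) ^ 2, 1 / (8 * D), ?_, by positivity, ?_⟩
  · have : (1 : ℝ) ≤ m := by linarith
    nlinarith
  intro β A B ψ F hA hA0 hB hF hqB
  obtain ⟨B₁, hB₁, hB0, hBc, hBJ, hBp⟩ := reduce' ψ hK hm4 hm1 B hB hqB
  have hAr : (1 : ℝ) ≤ A.card := by exact_mod_cast card_pos.2 hA
  have hBr : (1 : ℝ) ≤ B.card := by exact_mod_cast card_pos.2 hB
  have hB₁n : B₁.Nonempty := card_pos.1 (by
    have : (0 : ℝ) < B₁.card := by linarith
    exact_mod_cast this)
  have main := one_sided ((m : ℝ) / (4 * K)) hΛ1 A B₁ ψ hA hB₁n hA0 hB0 F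
    (fun z => (card_le_card (filter_subset_filter _ hB₁)).trans (hF z)) P
    (fun p hp => (mem_filter.1 hp).2)
    (fun p hp hpP => Exists.intro (0 : ℕ) (hBp p hp hpP))
  have hDB : (((B₁.image ψ).image (pt P)).card : ℝ) ≤ D := by
    rw [hD]
    have h1 := card_pt_le (B₁.image ψ) P (m ^ 2) (fun a ha p hp => by
      obtain ⟨b, hb, rfl⟩ := mem_image.1 ha
      exact hBJ b hb p hp)
    exact_mod_cast h1
  have hsub : ((A * B₁.image ψ).card : ℝ) ≤ (A * B.image ψ).card := by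
    exact_mod_cast card_le_card (mul_subset_mul_left (image_subset_image hB₁))
  have hB₁r : (1 : ℝ) ≤ B₁.card := by exact_mod_cast card_pos.2 hB₁n
  have h1 : 1 ≤ (A.card : ℝ) * B₁.card := by nlinarith only [hAr, hB₁r]
  have h2 : ((A.card : ℝ) * B₁.card) ^ (1 - ε) ≤
      ((A.card : ℝ) * B₁.card) ^ (1 - 9 / Real.log ((m : ℝ) / (4 * K))) :=
    Real.rpow_le_rpow_of_exponent_le h1 (by linarith)
  have h3 : ((A.card : ℝ) * B.card) ^ (1 - ε) ≤
      2 * ((A.card : ℝ) * B₁.card) ^ (1 - ε) := by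
    have h4 : (A.card : ℝ) * B.card ≤ 2 * ((A.card : ℝ) * B₁.card) := by
      have := mul_le_mul_of_nonneg_left hBc (show (0 : ℝ) ≤ A.card by linarith)
      linarith
    have h5 := Real.rpow_le_rpow (by positivity) h4 (show 0 ≤ 1 - ε by linarith)
    rw [Real.mul_rpow (show (0 : ℝ) ≤ 2 by norm_num)
      (show (0 : ℝ) ≤ (A.card : ℝ) * B₁.card by positivity)] at h5
    refine h5.trans (mul_le_mul_of_nonneg_right ?_ (by positivity))
    have := Real.rpow_le_rpow_of_exponent_le (show (1 : ℝ) ≤ 2 by norm_num)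
      (show 1 - ε ≤ 1 by linarith)
    rwa [Real.rpow_one] at this
  have h6 : 4 * (((B₁.image ψ).image (pt P)).card : ℝ) * F * (A * B₁.image ψ).card ≤
      4 * D * F * (A * B.image ψ).card := by
    gcongr
  rw [one_div, inv_mul_le_iff₀ (by positivity)]
  linarith

end Pool.Agent.X66.SP
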