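import Mathlib
import Pool.Agent.X66.SP.Pow

/-!
# Products of an arbitrary set with runs and progressions
-/

set_option autoImplicit false

namespace Pool.Agent.X66.SP

open Finset Pool.Agent.Y359.PE
open scoped Classical Pointwise

/-- the case of a set -/
theorem primepow_set (K ε : ℝ) (hK : 1 ≤ K) (hε : 0 < ε) (hε1 : ε ≤ 1) :
    ∃ L c : ℝ, 1 ≤ L ∧ 0 < c ∧ ∀ A B : Finset ℤ, A.Nonempty → (0 : ℤ) ∉ A → B.Nonempty →
      (∀ q : ℕ, IsPrimePow q →
        ((B.filter fun b => (q : ℤ) ∣ b).card : ℝ) ≤ (K / q + 1 / L) * B.card) →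
      c * ((A.card : ℝ) * B.card) ^ (1 - ε) ≤ (A * B).card := by
  obtain ⟨L, c, hL, hc, h⟩ := primepow_one K ε hK hε hε1
  refine ⟨L, c, hL, hc, fun A B hA h0 hB hq => ?_⟩
  have h1 := h ℤ A B (fun b => b) 1 hA h0 hB (fun z => by
    rw [card_le_one]
    intro a ha b hb
    rw [(mem_filter.1 ha).2, (mem_filter.1 hb).2]) hq
  rw [show B.image (fun b => b) = B from image_id, Nat.cast_one, one_mul] at h1
  exact h1

/-- **Runs.** -/
theorem runs_one (ε : ℝ) (hε : 0 < ε) (hε1 : ε ≤ 1) :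
    ∃ (L : ℕ) (c : ℝ), 1 ≤ L ∧ 0 < c ∧ ∀ A B : Finset ℤ, A.Nonempty → (0 : ℤ) ∉ A → B.Nonempty →
      (∀ b ∈ B, ∃ x : ℤ, x ≤ b ∧ b < x + L ∧ Ico x (x + L) ⊆ B) →
      c * ((A.card : ℝ) * B.card) ^ (1 - ε) ≤ (A * B).card := by
  obtain ⟨L, c, hL, hc, h⟩ := primepow_set 2 ε (by norm_num) hε hε1
  refine ⟨⌈L⌉₊, c, Nat.one_le_ceil_iff.2 (by linarith), hc, fun A B hA h0 hB hrB => ?_⟩
  have hL0 : 0 < ⌈L⌉₊ := Nat.ceil_pos.2 (by linarith)
  have h1 : 1 / ((⌈L⌉₊ : ℕ) : ℝ) ≤ 1 / L := one_div_le_one_div_of_le (by linarith) (Nat.le_ceil _)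
  refine h A B hA h0 hB (fun q hq => ?_)
  refine (mult_runs B ⌈L⌉₊ hL0 hrB q hq.pos).trans ?_
  exact mul_le_mul_of_nonneg_right (by linarith) (by positivity)

/-- multiples of prime powers in a union of long primitive progressions with bounded overlap -/
lemma mult_progs (D : ℕ) (hD : 1 ≤ D) (L : ℝ) (hL : 1 ≤ L) (A : Finset ℤ) (ι : Type)
    (I : Finset ι) (a d : ι → ℤ) (n : ι → ℕ)
    (h1 : ∀ i ∈ I, d i ≠ 0 ∧ IsCoprime (a i) (d i) ∧ ⌈D * L⌉₊ ≤ n i)
    (h2 : ∀ x, x ∈ A ↔ ∃ i ∈ I, ∃ j < n i, x = a i + j * d i)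
    (h3 : ∀ x ∈ A, (I.filter fun i => ∃ j < n i, x = a i + j * d i).card ≤ D) (q : ℕ)
    (hq : IsPrimePow q) :
    ((A.filter fun x : ℤ => (q : ℤ) ∣ x).card : ℝ) ≤ ((D : ℝ) / q + 1 / L) * A.card := by
  have hDr : (1 : ℝ) ≤ D := by exact_mod_cast hD
  have hq0 : (0 : ℝ) < q := by exact_mod_cast hq.pos
  let R : ι → Finset ℤ := fun i => (range (n i)).image fun j : ℕ => a i + j * d i
  have hinj : ∀ i ∈ I, Function.Injective fun j : ℕ => a i + j * d i := by
    intro i hi j j' hjj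
    have h4 : (j : ℤ) * d i = j' * d i := add_left_cancel hjj
    have h5 := mul_right_cancel₀ (h1 i hi).1 h4
    exact_mod_cast h5
  have hmemR : ∀ i x, x ∈ R i ↔ ∃ j < n i, x = a i + j * d i := by
    intro i x
    simp only [R, mem_image, mem_range]
    constructor
    · rintro ⟨j, hj, rfl⟩
      exact ⟨j, hj, rfl⟩
    · rintro ⟨j, hj, rfl⟩
      exact ⟨j, hj, rfl⟩
  have hRc : ∀ i ∈ I, (R i).card = n i := by
    intro i hi
    rw [card_image_of_injective _ (hinj i hi), card_range]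
  have hsum : ∑ i ∈ I, (n i : ℝ) ≤ D * A.card := by
    have e1 : ∀ i ∈ I, (n i : ℝ) = ∑ x ∈ A, if x ∈ R i then (1 : ℝ) else 0 := by
      intro i hi
      rw [← hRc i hi, ← sum_filter, sum_const, nsmul_eq_mul, mul_one]
      congr 2
      ext x
      rw [mem_filter]
      exact ⟨fun hx => ⟨(h2 x).2 ⟨i, hi, (hmemR i x).1 hx⟩, hx⟩, fun hx => hx.2⟩
    rw [sum_congr rfl e1, sum_comm]
    have e2 : ∀ x ∈ A, (∑ i ∈ I, if x ∈ R i then (1 : ℝ) else 0) ≤ D := by
      intro x hx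
      rw [← sum_filter, sum_const, nsmul_eq_mul, mul_one]
      have e3 := h3 x hx
      have e4 : (I.filter fun i => x ∈ R i) = I.filter fun i => ∃ j < n i, x = a i + j * d i :=
        filter_congr fun i _ => hmemR i x
      rw [e4]
      exact_mod_cast e3
    refine (sum_le_sum e2).trans ?_
    rw [sum_const, nsmul_eq_mul]
    linarith
  have hcov : (A.filter fun x : ℤ => (q : ℤ) ∣ x) ⊆
      I.biUnion fun i => ((range (n i)).filter fun j : ℕ => (q : ℤ) ∣ a i + j * d i).image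
        fun j : ℕ => a i + j * d i := by
    intro x hx
    rw [mem_filter] at hx
    obtain ⟨i, hi, j, hj, rfl⟩ := (h2 x).1 hx.1
    rw [mem_biUnion]
    refine ⟨i, hi, mem_image.2 ⟨j, mem_filter.2 ⟨mem_range.2 hj, hx.2⟩, rfl⟩⟩
  have hcov2 : ((A.filter fun x : ℤ => (q : ℤ) ∣ x).card : ℝ) ≤ ∑ i ∈ I, ((n i : ℝ) / q + 1) := by
    have e1 : ((A.filter fun x : ℤ => (q : ℤ) ∣ x).card : ℝ) ≤ ∑ i ∈ I,
        ((((range (n i)).filter fun j : ℕ => (q : ℤ) ∣ a i + j * d i).image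
        fun j : ℕ => a i + j * d i).card : ℝ) := by
      exact_mod_cast (card_le_card hcov).trans card_biUnion_le
    refine e1.trans (sum_le_sum fun i hi => ?_)
    have e2 : ((((range (n i)).filter fun j : ℕ => (q : ℤ) ∣ a i + j * d i).image
        fun j : ℕ => a i + j * d i).card : ℝ) ≤
        ((range (n i)).filter fun j : ℕ => (q : ℤ) ∣ a i + j * d i).card := by
      exact_mod_cast card_image_le
    exact e2.trans (mult_prog (a i) (d i) (h1 i hi).1 (h1 i hi).2.1 (n i) q hq)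
  refine hcov2.trans ?_
  have hL0 : 0 < L := by linarith
  have hone : ∀ i ∈ I, ((n i : ℝ) / q + 1) ≤ (1 / q + 1 / (D * L)) * n i := by
    intro i hi
    have e1 : (D : ℝ) * L ≤ n i := by
      have := (h1 i hi).2.2
      exact (Nat.le_ceil _).trans (by exact_mod_cast this)
    have e2 : (1 : ℝ) ≤ 1 / (D * L) * n i := by
      rw [one_div, ← div_eq_inv_mul, le_div_iff₀ (by positivity)]
      linarith
    have e3 : (n i : ℝ) / q = 1 / q * n i := by ring
    linarith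
  refine (sum_le_sum hone).trans ?_
  rw [← mul_sum]
  have e5 : (0 : ℝ) ≤ 1 / q + 1 / (D * L) := by positivity
  refine (mul_le_mul_of_nonneg_left hsum e5).trans (le_of_eq ?_)
  field_simp

/-- **Primitive progressions.** -/
theorem progs_one (D : ℕ) (hD : 1 ≤ D) (ε : ℝ) (hε : 0 < ε) (hε1 : ε ≤ 1) :
    ∃ (L : ℕ) (c : ℝ), 1 ≤ L ∧ 0 < c ∧ ∀ (A B : Finset ℤ) (ι : Type) (I : Finset ι)
      (a d : ι → ℤ) (n : ι → ℕ), A.Nonempty → (0 : ℤ) ∉ A → B.Nonempty →
      (∀ i ∈ I, d i ≠ 0 ∧ IsCoprime (a i) (d i) ∧ L ≤ n i) →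
      (∀ x, x ∈ B ↔ ∃ i ∈ I, ∃ j < n i, x = a i + j * d i) →
      (∀ x ∈ B, (I.filter fun i => ∃ j < n i, x = a i + j * d i).card ≤ D) →
      c * ((A.card : ℝ) * B.card) ^ (1 - ε) ≤ (A * B).card := by
  have hDr : (1 : ℝ) ≤ D := by exact_mod_cast hD
  obtain ⟨L, c, hL, hc, h⟩ := primepow_set D ε hDr hε hε1
  refine ⟨⌈D * L⌉₊, c, Nat.one_le_ceil_iff.2 (by positivity), hc, ?_⟩
  intro A B ι I a d n hA h0 hB h1 h2 h3
  exact h A B hA h0 hB fun q hq => mult_progs D hD L hL B ι I a d n h1 h2 h3 q hq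

/-- **Arithmetic progressions.** -/
theorem ap_one (ε : ℝ) (hε : 0 < ε) (hε1 : ε ≤ 1) :
    ∃ c : ℝ, 0 < c ∧ ∀ (A : Finset ℤ) (a d : ℤ) (n : ℕ), A.Nonempty → (0 : ℤ) ∉ A → d ≠ 0 →
      2 ≤ n → c * ((A.card : ℝ) * n) ^ (1 - ε) ≤
        (A * (range n).image fun j : ℕ => a + j * d).card := by
  obtain ⟨L, c, hL, hc, h⟩ := progs_one 1 le_rfl ε hε hε1
  have hLr : (1 : ℝ) ≤ L := by exact_mod_cast hL
  refine ⟨min c (1 / L), lt_min hc (by positivity), fun A a d n hA h0 hd hn => ?_⟩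
  have hA1 : (1 : ℝ) ≤ A.card := by exact_mod_cast card_pos.2 hA
  have hnr : (2 : ℝ) ≤ n := by exact_mod_cast hn
  have hN1 : 1 ≤ (A.card : ℝ) * n := by nlinarith
  have hpow : 0 ≤ ((A.card : ℝ) * n) ^ (1 - ε) := by positivity
  -- divide by the gcd
  obtain ⟨g, a', d', hg, hcop, ha, hd'⟩ : ∃ g a' d' : ℤ, g ≠ 0 ∧ IsCoprime a' d' ∧ a = g * a' ∧
      d = g * d' := by
    have hgcd : Int.gcd a d ≠ 0 := fun h => hd (Int.gcd_eq_zero_iff.1 h).2
    obtain ⟨a', d', h1, h2, h3⟩ := Int.exists_gcd_one (m := a) (n := d) (Nat.pos_of_ne_zero hgcd)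
    refine ⟨Int.gcd a d, a', d', by exact_mod_cast hgcd, Int.isCoprime_iff_gcd_eq_one.2 h1, ?_, ?_⟩
    · rw [mul_comm]; exact h2
    · rw [mul_comm]; exact h3
  have hd0 : d' ≠ 0 := fun hh => hd (by rw [hd', hh, mul_zero])
  set B' := (range n).image fun j : ℕ => a' + j * d' with hB'
  have hinj : Function.Injective fun j : ℕ => a' + (j : ℤ) * d' := by
    intro j j' hjj
    have h4 : (j : ℤ) * d' = j' * d' := add_left_cancel hjj
    exact_mod_cast mul_right_cancel₀ hd0 h4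
  have hB'c : B'.card = n := by rw [hB', card_image_of_injective _ hinj, card_range]
  have himg : ((A * (range n).image fun j : ℕ => a + j * d).card : ℝ) = (A * B').card := by
    have e1 : A * ((range n).image fun j : ℕ => a + j * d) = (A * B').image fun x => g * x := by
      ext x
      rw [mem_mul, mem_image]
      constructor
      · rintro ⟨y, hy, z, hz, rfl⟩
        obtain ⟨j, hj, rfl⟩ := mem_image.1 hz
        refine ⟨y * (a' + j * d'), mul_mem_mul hy (mem_image.2 ⟨j, hj, rfl⟩), ?_⟩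
        rw [ha, hd']
        ring
      · rintro ⟨w, hw, rfl⟩
        obtain ⟨y, hy, z, hz, rfl⟩ := mem_mul.1 hw
        obtain ⟨j, hj, rfl⟩ := mem_image.1 hz
        refine ⟨y, hy, a + j * d, mem_image.2 ⟨j, hj, rfl⟩, ?_⟩
        rw [ha, hd']
        ring
    rw [e1, card_image_of_injective]
    intro x y hxy
    exact mul_left_cancel₀ hg hxy
  rw [himg]
  rcases le_or_gt L n with hLn | hLn
  · have hB'n : B'.Nonempty := ⟨a' + (0 : ℕ) * d', mem_image.2 ⟨0, mem_range.2 (by omega), rfl⟩⟩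
    have := h A B' Unit {()} (fun _ => a') (fun _ => d') (fun _ => n) hA h0 hB'n
      (fun _ _ => ⟨hd0, hcop, hLn⟩) (fun x => by
        rw [hB', mem_image]
        constructor
        · rintro ⟨j, hj, rfl⟩
          exact ⟨(), mem_singleton_self _, j, mem_range.1 hj, rfl⟩
        · rintro ⟨_, _, j, hj, rfl⟩
          exact ⟨j, mem_range.2 hj, rfl⟩) (fun x _ => by
        refine (card_le_card (filter_subset _ _)).trans ?_
        rw [card_singleton])
    rw [hB'c] at this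
    exact (mul_le_mul_of_nonneg_right (min_le_left _ _) hpow).trans this
  · -- a short progression
    have hne : ∃ b ∈ B', b ≠ 0 := by
      by_contra hcon
      push Not at hcon
      have e0 := hcon (a' + (0 : ℕ) * d') (mem_image.2 ⟨0, mem_range.2 (by omega), rfl⟩)
      have e1 := hcon (a' + (1 : ℕ) * d') (mem_image.2 ⟨1, mem_range.2 (by omega), rfl⟩)
      push_cast at e0 e1
      apply hd0
      linarith
    obtain ⟨b, hb, hb0⟩ := hne
    have h1 : (A.card : ℝ) ≤ (A * B').card := by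
      have e1 : (A.image fun x => x * b) ⊆ A * B' := by
        intro x hx
        obtain ⟨y, hy, rfl⟩ := mem_image.1 hx
        exact mul_mem_mul hy hb
      have e2 := card_le_card e1
      rw [card_image_of_injective _ (fun x y hxy => mul_right_cancel₀ hb0 hxy)] at e2
      exact_mod_cast e2
    have h2 : ((A.card : ℝ) * n) ^ (1 - ε) ≤ (A.card : ℝ) * n := by
      have := Real.rpow_le_rpow_of_exponent_le hN1 (show 1 - ε ≤ 1 by linarith)
      rwa [Real.rpow_one] at this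
    have h3 : (n : ℝ) ≤ L := by exact_mod_cast hLn.le
    refine le_trans ?_ h1
    calc min c (1 / (L : ℝ)) * ((A.card : ℝ) * n) ^ (1 - ε)
        ≤ 1 / L * ((A.card : ℝ) * n) :=
          mul_le_mul (min_le_right _ _) h2 hpow (by positivity)
      _ ≤ 1 / L * ((A.card : ℝ) * L) := by gcongr
      _ = A.card := by field_simp

end Pool.Agent.X66.SP
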