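import Mathlib
import Pool.Agent.X66.SP.Prog

/-!
# Products of an arbitrary set with almost all shifts of an arbitrary set
-/

set_option autoImplicit false

namespace Pool.Agent.X66.SP

open Finset Pool.Agent.Y359.PE
open scoped Classical Pointwise

/-- the elements divisible by `q` in a short interval -/
lemma card_dvd_Ico (q : ℕ) (hq : 0 < q) (s x : ℤ) (M : ℕ) :
    (((Ico x (x + M)).filter fun t : ℤ => (q : ℤ) ∣ s + t).card : ℝ) ≤ M / q + 1 := by
  have hq' : (0 : ℤ) < q := by exact_mod_cast hq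
  rcases ((Ico x (x + M)).filter fun t : ℤ => (q : ℤ) ∣ s + t).eq_empty_or_nonempty with h0 | hne
  · rw [h0, card_empty]
    push_cast
    positivity
  obtain ⟨x0, hx0, hmin⟩ := ((Ico x (x + M)).filter fun t : ℤ =>
    (q : ℤ) ∣ s + t).exists_min_image id hne
  have hx0' := mem_filter.1 hx0
  have h1 : ((Ico x (x + M)).filter fun t : ℤ => (q : ℤ) ∣ s + t).card ≤
      (range (M / q + 1)).card := by
    refine card_le_card_of_injOn (fun t => ((t - x0) / q).toNat) ?_ ?_
    · intro t ht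
      rw [mem_coe] at ht
      have ht' := mem_filter.1 ht
      rw [mem_coe, mem_range]
      have h2 := hmin t ht
      simp only [id] at h2
      have h3 := (mem_Ico.1 ht'.1).2
      have h4 := (mem_Ico.1 hx0'.1).1
      have h5 : t - x0 ≤ M := by linarith
      have h6 : (t - x0) / q ≤ (M : ℤ) / q := Int.ediv_le_ediv hq' h5
      have h7 : 0 ≤ (t - x0) / q := Int.ediv_nonneg (by linarith) hq'.le
      have h8 : ((M : ℤ) / q) = ((M / q : ℕ) : ℤ) := by push_cast; rfl
      rw [h8] at h6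
      show ((t - x0) / q).toNat < M / q + 1
      omega
    · intro t ht t' ht' htt
      rw [mem_coe] at ht ht'
      have ht2 := mem_filter.1 ht
      have ht2' := mem_filter.1 ht'
      have hx1 : 0 ≤ (t - x0) / q :=
        Int.ediv_nonneg (by have := hmin t ht; simp only [id] at this; linarith) hq'.le
      have hy1 : 0 ≤ (t' - x0) / q :=
        Int.ediv_nonneg (by have := hmin t' ht'; simp only [id] at this; linarith) hq'.le
      have h9 : (t - x0) / q = (t' - x0) / q := by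
        have : ((t - x0) / q).toNat = ((t' - x0) / q).toNat := htt
        omega
      have d1 : (q : ℤ) ∣ t - x0 := by
        have := dvd_sub ht2.2 hx0'.2
        rwa [add_sub_add_left_eq_sub] at this
      have d2 : (q : ℤ) ∣ t' - x0 := by
        have := dvd_sub ht2'.2 hx0'.2
        rwa [add_sub_add_left_eq_sub] at this
      have e1 := Int.ediv_mul_cancel d1
      have e2 := Int.ediv_mul_cancel d2
      rw [h9] at e1
      linarith
  rw [card_range] at h1
  have h2 : ((M / q : ℕ) : ℝ) ≤ M / (q : ℝ) := Nat.cast_div_le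
  have h3 : (((Ico x (x + M)).filter fun t : ℤ => (q : ℤ) ∣ s + t).card : ℝ) ≤
      (M / q : ℕ) + 1 := by exact_mod_cast h1
  linarith

/-- **Intervals of length `L`.** -/
theorem shifts_block (ε δ : ℝ) (hε : 0 < ε) (hε1 : ε ≤ 1) (hδ : 0 < δ) (hδ1 : δ ≤ 1) :
    ∃ (L : ℕ) (c : ℝ), 1 ≤ L ∧ 0 < c ∧ ∀ (A S : Finset ℤ) (x : ℤ), A.Nonempty → (0 : ℤ) ∉ A →
      S.Nonempty → (((Ico x (x + L)).filter fun t : ℤ =>
        ((A * S.image fun s => s + t).card : ℝ) <
          c * ((A.card : ℝ) * S.card) ^ (1 - ε)).card : ℝ) ≤ δ * L := by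
  obtain ⟨L, c, hL, hc, h⟩ := primepow_one (1 / δ) ε (by rw [le_div_iff₀ hδ]; linarith) hε hε1
  set L' : ℕ := ⌈L / δ⌉₊ with hL'
  have hLd : 0 < L / δ := by positivity
  have hL'0 : 0 < L' := Nat.ceil_pos.2 hLd
  have hL'r : (0 : ℝ) < L' := by exact_mod_cast hL'0
  have hL'le : L / δ ≤ L' := Nat.le_ceil _
  refine ⟨L', c / (L' : ℝ) ^ 2, hL'0, by positivity, fun A S x hA h0 hS => ?_⟩
  set Θ := (Ico x (x + L')).filter fun t : ℤ => ((A * S.image fun s => s + t).card : ℝ) <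
    c / (L' : ℝ) ^ 2 * ((A.card : ℝ) * S.card) ^ (1 - ε) with hΘ
  by_contra hcon
  push Not at hcon
  have hΘpos : (0 : ℝ) < Θ.card := lt_of_le_of_lt (by positivity) hcon
  have hΘn : Θ.Nonempty := card_pos.1 (by exact_mod_cast hΘpos)
  have hΘsub : Θ ⊆ Ico x (x + L') := filter_subset _ _
  have hΘc : Θ.card ≤ L' := by
    refine (card_le_card hΘsub).trans (le_of_eq ?_)
    rw [Int.card_Ico]
    simp
  have hΘcr : (Θ.card : ℝ) ≤ L' := by exact_mod_cast hΘc
  have hΘ1 : (1 : ℝ) ≤ Θ.card := by exact_mod_cast card_pos.2 hΘn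
  have hSr : (1 : ℝ) ≤ S.card := by exact_mod_cast card_pos.2 hS
  have hAr : (1 : ℝ) ≤ A.card := by exact_mod_cast card_pos.2 hA
  have key := h (ℤ × ℤ) A (S ×ˢ Θ) (fun s => s.1 + s.2) L' hA h0 (hS.product hΘn) (fun z => by
    refine le_trans ?_ hΘc
    refine card_le_card_of_injOn (fun s => s.2) ?_ ?_
    · intro s hs
      exact (mem_product.1 (mem_filter.1 (mem_coe.1 hs)).1).2
    · intro s hs s' hs' hss
      have e1 := (mem_filter.1 (mem_coe.1 hs)).2
      have e2 := (mem_filter.1 (mem_coe.1 hs')).2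
      have e3 : s.2 = s'.2 := hss
      refine Prod.ext ?_ e3
      have e4 : s.1 + s.2 = s'.1 + s'.2 := e1.trans e2.symm
      rw [e3] at e4
      exact add_right_cancel e4) (fun q hq => by
    have hq0 : (0 : ℝ) < q := by exact_mod_cast hq.pos
    have e1 : ((S ×ˢ Θ).filter fun s => (q : ℤ) ∣ s.1 + s.2).card ≤
        ∑ s ∈ S, ((Ico x (x + L')).filter fun t : ℤ => (q : ℤ) ∣ s + t).card := by
      have e2 : ((S ×ˢ Θ).filter fun s => (q : ℤ) ∣ s.1 + s.2) ⊆
          S.biUnion fun s => ((Ico x (x + L')).filter fun t : ℤ => (q : ℤ) ∣ s + t).image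
            fun t => (s, t) := by
        intro s hs
        obtain ⟨hs1, hs2⟩ := mem_filter.1 hs
        rw [mem_product] at hs1
        exact mem_biUnion.2 ⟨s.1, hs1.1, mem_image.2 ⟨s.2, mem_filter.2 ⟨hΘsub hs1.2, hs2⟩, rfl⟩⟩
      exact (card_le_card e2).trans (card_biUnion_le.trans (sum_le_sum fun s _ => card_image_le))
    have e3 : (((S ×ˢ Θ).filter fun s => (q : ℤ) ∣ s.1 + s.2).card : ℝ) ≤
        S.card * ((L' : ℝ) / q + 1) := by
      have e4 : (((S ×ˢ Θ).filter fun s => (q : ℤ) ∣ s.1 + s.2).card : ℝ) ≤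
          ∑ s ∈ S, (((Ico x (x + L')).filter fun t : ℤ => (q : ℤ) ∣ s + t).card : ℝ) := by
        exact_mod_cast e1
      refine e4.trans ((sum_le_sum fun s _ => card_dvd_Ico q hq.pos s x L').trans ?_)
      rw [sum_const, nsmul_eq_mul]
    refine e3.trans ?_
    rw [card_product]
    push_cast
    -- `L' / q + 1 ≤ (1 / (δ q) + 1 / L) |Θ|`
    have e5 : (L' : ℝ) / q + 1 ≤ (1 / δ / q + 1 / L) * Θ.card := by
      have f1 : (L' : ℝ) ≤ 1 / δ * Θ.card := by
        rw [one_div, ← div_eq_inv_mul, le_div_iff₀ hδ]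
        linarith
      have f2 : (1 : ℝ) ≤ 1 / L * Θ.card := by
        rw [one_div, ← div_eq_inv_mul, le_div_iff₀ (by linarith)]
        rw [div_le_iff₀ hδ] at hL'le
        linarith
      have f3 : (L' : ℝ) / q ≤ 1 / δ / q * Θ.card := by
        rw [div_mul_eq_mul_div]
        exact div_le_div_of_nonneg_right f1 hq0.le
      linarith
    have e6 := mul_le_mul_of_nonneg_left e5 (show (0 : ℝ) ≤ S.card by linarith)
    linarith)
  -- pigeonhole
  have h3 : A * (S ×ˢ Θ).image (fun s => s.1 + s.2) ⊆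
      Θ.biUnion fun t => A * S.image fun s => s + t := by
    intro v hv
    obtain ⟨a, ha, b, hb, rfl⟩ := mem_mul.1 hv
    obtain ⟨u, hu, rfl⟩ := mem_image.1 hb
    rw [mem_product] at hu
    exact mem_biUnion.2 ⟨u.2, hu.2, mul_mem_mul ha (mem_image.2 ⟨u.1, hu.1, rfl⟩)⟩
  have h4 : ((A * (S ×ˢ Θ).image (fun s => s.1 + s.2)).card : ℝ) ≤
      ∑ t ∈ Θ, ((A * S.image fun s => s + t).card : ℝ) := by
    exact_mod_cast (card_le_card h3).trans card_biUnion_le
  have h5 : ∑ t ∈ Θ, ((A * S.image fun s => s + t).card : ℝ) <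
      ∑ _t ∈ Θ, c / (L' : ℝ) ^ 2 * ((A.card : ℝ) * S.card) ^ (1 - ε) :=
    sum_lt_sum_of_nonempty hΘn fun t ht => (mem_filter.1 ht).2
  rw [sum_const, nsmul_eq_mul] at h5
  have hpow : 0 ≤ ((A.card : ℝ) * S.card) ^ (1 - ε) := by positivity
  have h6 : (Θ.card : ℝ) * (c / (L' : ℝ) ^ 2 * ((A.card : ℝ) * S.card) ^ (1 - ε)) ≤
      L' * (c / (L' : ℝ) ^ 2 * ((A.card : ℝ) * S.card) ^ (1 - ε)) :=
    mul_le_mul_of_nonneg_right hΘcr (by positivity)
  have h7 : ((A.card : ℝ) * S.card) ^ (1 - ε) ≤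
      ((A.card : ℝ) * (S ×ˢ Θ).card) ^ (1 - ε) := by
    refine Real.rpow_le_rpow (by positivity) ?_ (by linarith)
    rw [card_product]
    push_cast
    have : (A.card : ℝ) * S.card * 1 ≤ (A.card : ℝ) * S.card * Θ.card :=
      mul_le_mul_of_nonneg_left hΘ1 (by positivity)
    linarith
  have h8 : (L' : ℝ) * (L' * (c / (L' : ℝ) ^ 2 * ((A.card : ℝ) * S.card) ^ (1 - ε))) =
      c * ((A.card : ℝ) * S.card) ^ (1 - ε) := by
    field_simp
  have h9 := mul_le_mul_of_nonneg_left h7 hc.le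
  have h10 : (L' : ℝ) * (A * (S ×ˢ Θ).image (fun s => s.1 + s.2)).card <
      L' * (L' * (c / (L' : ℝ) ^ 2 * ((A.card : ℝ) * S.card) ^ (1 - ε))) :=
    mul_lt_mul_of_pos_left (lt_of_le_of_lt h4 (lt_of_lt_of_le h5 h6)) hL'r
  rw [h8] at h10
  linarith

/-- **Almost all shifts in every long interval.** -/
theorem shifts_all (ε δ : ℝ) (hε : 0 < ε) (hε1 : ε ≤ 1) (hδ : 0 < δ) :
    ∃ (L : ℕ) (c : ℝ), 0 < c ∧ ∀ (A S : Finset ℤ) (x : ℤ) (M : ℕ), A.Nonempty → (0 : ℤ) ∉ A →
      S.Nonempty → L ≤ M → (((Ico x (x + M)).filter fun t : ℤ =>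
        ((A * S.image fun s => s + t).card : ℝ) <
          c * ((A.card : ℝ) * S.card) ^ (1 - ε)).card : ℝ) ≤ δ * M := by
  obtain ⟨L, c, hL, hc, h⟩ := shifts_block ε (min (δ / 2) 1) hε hε1 (by positivity)
    (min_le_right _ _)
  have hLr : (0 : ℝ) < L := by exact_mod_cast hL
  refine ⟨L, c, hc, fun A S x M hA h0 hS hLM => ?_⟩
  set N : ℕ := M / L + 1 with hN
  have hcov : ((Ico x (x + M)).filter fun t : ℤ =>
      ((A * S.image fun s => s + t).card : ℝ) < c * ((A.card : ℝ) * S.card) ^ (1 - ε)) ⊆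
      (range N).biUnion fun i => (Ico (x + i * L : ℤ) (x + i * L + L)).filter fun t : ℤ =>
        ((A * S.image fun s => s + t).card : ℝ) < c * ((A.card : ℝ) * S.card) ^ (1 - ε) := by
    intro t ht
    obtain ⟨ht1, ht2⟩ := mem_filter.1 ht
    rw [mem_Ico] at ht1
    have hL' : (0 : ℤ) < L := by exact_mod_cast hL
    have h1 : 0 ≤ (t - x) / L := Int.ediv_nonneg (by linarith) hL'.le
    have h2 : (t - x) / L ≤ (M : ℤ) / L := Int.ediv_le_ediv hL' (by linarith)
    have h3 : ((M : ℤ) / L) = ((M / L : ℕ) : ℤ) := by push_cast; rfl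
    have h4 := Int.emod_add_mul_ediv (t - x) L
    have h5 := Int.emod_nonneg (t - x) hL'.ne'
    have h6 := Int.emod_lt_of_pos (t - x) hL'
    rw [mem_biUnion]
    refine ⟨((t - x) / L).toNat, mem_range.2 (by omega), mem_filter.2 ⟨mem_Ico.2 ?_, ht2⟩⟩
    rw [Int.toNat_of_nonneg h1]
    constructor
    · nlinarith
    · nlinarith
  have h1 : (((Ico x (x + M)).filter fun t : ℤ =>
      ((A * S.image fun s => s + t).card : ℝ) <
        c * ((A.card : ℝ) * S.card) ^ (1 - ε)).card : ℝ) ≤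
      ∑ i ∈ range N, (((Ico (x + i * L : ℤ) (x + i * L + L)).filter fun t : ℤ =>
        ((A * S.image fun s => s + t).card : ℝ) <
          c * ((A.card : ℝ) * S.card) ^ (1 - ε)).card : ℝ) := by
    exact_mod_cast (card_le_card hcov).trans card_biUnion_le
  refine h1.trans ((sum_le_sum fun (i : ℕ) _ => h A S (x + (i : ℤ) * (L : ℤ)) hA h0 hS).trans ?_)
  rw [sum_const, nsmul_eq_mul, card_range]
  have h2 : (N : ℝ) * L ≤ 2 * M := by
    have e1 : (N : ℝ) = (M / L : ℕ) + 1 := by rw [hN]; push_cast; ring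
    have e2 : ((M / L : ℕ) : ℝ) * L ≤ M := by exact_mod_cast Nat.div_mul_le_self M L
    have e3 : (L : ℝ) ≤ M := by exact_mod_cast hLM
    rw [e1]
    linarith
  have h3 : min (δ / 2) 1 ≤ δ / 2 := min_le_left _ _
  have h4 : (0 : ℝ) ≤ (N : ℝ) * L := by positivity
  calc (N : ℝ) * (min (δ / 2) 1 * L) = min (δ / 2) 1 * (N * L) := by ring
    _ ≤ δ / 2 * (N * L) := mul_le_mul_of_nonneg_right h3 h4
    _ ≤ δ / 2 * (2 * M) := mul_le_mul_of_nonneg_left h2 (by positivity)
    _ = δ * M := by ring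

/-- **A set which contains one run.** -/
theorem run_expander (ε : ℝ) (hε : 0 < ε) (hε1 : ε ≤ 1) :
    ∃ (L : ℕ) (c : ℝ), 0 < c ∧ ∀ (A S B : Finset ℤ) (x : ℤ), A.Nonempty → (0 : ℤ) ∉ A →
      S.Nonempty → Ico x (x + L) ⊆ B →
        c * ((A.card : ℝ) * S.card) ^ (1 - ε) ≤ (A * (S + B)).card := by
  obtain ⟨L, c, hL, hc, h⟩ := shifts_block ε (1 / 2) hε hε1 (by norm_num) (by norm_num)
  have hLr : (0 : ℝ) < L := by exact_mod_cast hL
  refine ⟨L, c, hc, fun A S B x hA h0 hS hB => ?_⟩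
  have h1 := h A S x hA h0 hS
  by_contra hcon
  push Not at hcon
  have h2 : ((Ico x (x + L)).filter fun t : ℤ =>
      ((A * S.image fun s => s + t).card : ℝ) < c * ((A.card : ℝ) * S.card) ^ (1 - ε)) =
      Ico x (x + L) := by
    rw [filter_eq_self]
    intro t ht
    refine lt_of_le_of_lt ?_ hcon
    have : A * (S.image fun s => s + t) ⊆ A * (S + B) := by
      refine mul_subset_mul_left fun y hy => ?_
      obtain ⟨s, hs, rfl⟩ := mem_image.1 hy
      exact add_mem_add hs (hB ht)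
    exact_mod_cast card_le_card this
  rw [h2, Int.card_Ico] at h1
  simp only [add_sub_cancel_left, Int.toNat_natCast] at h1
  linarith

end Pool.Agent.X66.SP
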