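import Mathlib
import Pool.Agent.X66.SP.Main
import Pool.Agent.Y359.PE.PairDich

/-!
# A set with few popular primes grows under addition or under multiplication with every set
-/

set_option autoImplicit false

namespace Pool.Agent.X66.SP

open Finset Pool.Agent.Y359.PE
open scoped Classical Pointwise

/-- **Many sums with every set, or many products with every set.** -/
theorem dich_one (ε : ℝ) (hε : 0 < ε) (hε1 : ε ≤ 1) :
    ∃ L δ c : ℝ, 1 ≤ L ∧ 0 < δ ∧ 0 < c ∧ ∀ (A : Finset ℤ) (P : Finset ℕ),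
      A.Nonempty → (∀ p ∈ P, p.Prime) →
      (P.card : ℝ) * Real.log (Real.log A.card) ≤ δ * Real.log A.card →
      (∀ p : ℕ, p.Prime → p ∉ P →
        ∃ e : ℕ, L * ((A.filter fun b => b ≠ 0 ∧ fa b p ≠ e).card : ℝ) ≤ A.card) →
      (∀ B : Finset ℤ, B.Nonempty → c * ((A.card : ℝ) * B.card) ^ (1 - ε) ≤ (A + B).card) ∨
      (∀ B : Finset ℤ, B.Nonempty → (0 : ℤ) ∉ B →
        c * ((A.card : ℝ) * B.card) ^ (1 - ε) ≤ (A * B).card) := by
  set γ : ℝ := ε / 8 with hγ
  have hγ0 : 0 < γ := by positivity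
  have hγ8 : γ ≤ 1 / 8 := by rw [hγ]; linarith
  set δ : ℝ := ε / 64 with hδ
  have hδ0 : 0 < δ := by positivity
  set ε' : ℝ := ε / 4 with hε'
  have hε'0 : 0 < ε' := by positivity
  have hε'1 : ε' ≤ 1 := by rw [hε']; linarith
  set C : ℝ := 4 * (1 : ℕ) / ε' * Real.exp (6 * (1 : ℕ) / ε') with hC
  set Λ : ℝ := Real.exp (9 + 9 / γ) with hΛ
  have hlogΛ : Real.log Λ = 9 + 9 / γ := by rw [hΛ, Real.log_exp]
  have h5γ : 0 < 9 / γ := by positivity
  have hΛ5 : 9 < Real.log Λ := by rw [hlogΛ]; linarith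
  have hΛ1 : 1 < Λ := by
    rw [hΛ]
    exact Real.one_lt_exp_iff.2 (by linarith)
  have hΛγ : 9 / Real.log Λ ≤ γ := by
    rw [div_le_iff₀ (by linarith), hlogΛ]
    have : γ * (9 / γ) = 9 := by field_simp
    nlinarith only [this, hγ0]
  -- large sets
  have hlim : Filter.Tendsto (fun n : ℕ => Real.log (n : ℝ)) Filter.atTop Filter.atTop :=
    Real.tendsto_log_atTop.comp tendsto_natCast_atTop_atTop
  have hev : ∀ᶠ ℓ : ℝ in Filter.atTop, 2 ≤ ℓ ∧ 2 * C ≤ ℓ ∧ 1 ≤ Real.log ℓ ∧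
      Real.log ℓ ≤ δ * ℓ := by
    refine (Filter.eventually_ge_atTop 2).and ((Filter.eventually_ge_atTop (2 * C)).and
      ((Real.tendsto_log_atTop.eventually_ge_atTop 1).and ?_))
    have h1 := Real.isLittleO_log_id_atTop.bound hδ0
    filter_upwards [h1, Filter.eventually_ge_atTop 1] with x hx hx1
    rw [Real.norm_eq_abs, Real.norm_eq_abs, abs_of_nonneg (Real.log_nonneg hx1), id,
      abs_of_nonneg (by linarith)] at hx
    exact hx
  obtain ⟨N₀, hN₀⟩ := (hlim.eventually hev).exists_forall_of_atTop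
  set N₁ : ℕ := max N₀ 3 with hN₁
  have hN₁3 : 3 ≤ N₁ := le_max_right _ _
  have hN₁r : (3 : ℝ) ≤ N₁ := by exact_mod_cast hN₁3
  refine ⟨3 * Λ, δ, γ / (3 * N₁), by linarith, hδ0, by positivity, ?_⟩
  intro A P hA hP hPA hpop
  have hA1 : (1 : ℝ) ≤ A.card := by exact_mod_cast card_pos.2 hA
  have hc0 : 0 ≤ γ / (3 * (N₁ : ℝ)) := by positivity
  have hcN : γ / (3 * (N₁ : ℝ)) * N₁ ≤ 1 := by
    have : γ / (3 * (N₁ : ℝ)) * N₁ = γ / 3 := by field_simp
    rw [this]
    linarith
  rcases lt_or_ge A.card N₁ with hsA | hlA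
  · left
    intro B hB
    have hB1 : (1 : ℝ) ≤ B.card := by exact_mod_cast card_pos.2 hB
    have hAB1 : (1 : ℝ) ≤ (A.card : ℝ) * B.card := by nlinarith only [hA1, hB1]
    have hpow1 : ((A.card : ℝ) * B.card) ^ (1 - ε) ≤ (A.card : ℝ) * B.card := by
      have := Real.rpow_le_rpow_of_exponent_le hAB1 (show 1 - ε ≤ 1 by linarith)
      rwa [Real.rpow_one] at this
    have hBle : (B.card : ℝ) ≤ (A + B).card := by
      exact_mod_cast card_le_card_add_left hA
    have h3 : (A.card : ℝ) ≤ N₁ := by exact_mod_cast hsA.le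
    calc γ / (3 * (N₁ : ℝ)) * ((A.card : ℝ) * B.card) ^ (1 - ε)
        ≤ γ / (3 * (N₁ : ℝ)) * ((A.card : ℝ) * B.card) := mul_le_mul_of_nonneg_left hpow1 hc0
      _ ≤ γ / (3 * (N₁ : ℝ)) * ((N₁ : ℝ) * B.card) := by gcongr
      _ = γ / (3 * (N₁ : ℝ)) * N₁ * B.card := by ring
      _ ≤ 1 * B.card := mul_le_mul_of_nonneg_right hcN (by positivity)
      _ ≤ (A + B).card := by rw [one_mul]; exact hBle
  -- the set is large
  obtain ⟨hℓ2, hℓC, hℓ1, hℓδ⟩ := hN₀ A.card ((le_max_left _ _).trans hlA)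
  set ℓ := Real.log (A.card : ℝ) with hℓ
  obtain ⟨S, hSA, hS0, hSs, hSc⟩ := sign_part A (hN₁3.trans hlA)
  have hSc' : (A.card : ℝ) ≤ 3 * S.card := by exact_mod_cast hSc
  have hSp : (0 : ℝ) < S.card := by linarith
  have hSn : S.Nonempty := card_pos.1 (by exact_mod_cast hSp)
  choose! e he using hpop
  set T := pr S \ P with hT
  have popS : ∀ p ∈ T, Λ * ((S.filter fun a => fa a p ≠ e p).card : ℝ) ≤ S.card := by
    intro p hp
    rw [hT, mem_sdiff] at hp
    have h1 := he p (prime_of_mem_pr hp.1) hp.2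
    have h2 : ((S.filter fun a => fa a p ≠ e p).card : ℝ) ≤
        ((A.filter fun b => b ≠ 0 ∧ fa b p ≠ e p).card : ℝ) := by
      have : (S.filter fun a => fa a p ≠ e p) ⊆ A.filter fun b => b ≠ 0 ∧ fa b p ≠ e p := by
        intro a ha
        rw [mem_filter] at ha ⊢
        exact ⟨hSA ha.1, fun h => hS0 (h ▸ ha.1), ha.2⟩
      exact_mod_cast card_le_card this
    have h3 := mul_le_mul_of_nonneg_left h2 (show 0 ≤ 3 * Λ by linarith)
    linarith
  have hTS : ∀ p, p ∉ P → p ∉ T → ∀ a ∈ S, fa a p = 0 := by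
    intro p hp hpT a ha
    exact fa_eq_zero ha fun h => hpT (mem_sdiff.2 ⟨h, hp⟩)
  have hcγ : γ / (3 * (N₁ : ℝ)) ≤ γ / 3 :=
    div_le_div_of_nonneg_left hγ0.le (by norm_num) (by linarith only [hN₁r])
  have hlogS : Real.log S.card ≤ ℓ := by
    refine Real.log_le_log hSp ?_
    exact_mod_cast card_le_card hSA
  have hgoal : ∀ (B : Finset ℤ) (Z : ℝ), B.Nonempty → 0 < Z →
      (1 - ε) * (ℓ + Real.log B.card) + Real.log (γ / 3) ≤ Real.log Z →
      γ / (3 * (N₁ : ℝ)) * ((A.card : ℝ) * B.card) ^ (1 - ε) ≤ Z := by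
    intro B Z hB hZ h
    have hB1 : (1 : ℝ) ≤ B.card := by exact_mod_cast card_pos.2 hB
    have hAB0 : (0 : ℝ) < (A.card : ℝ) * B.card := by positivity
    have h8 : γ / (3 * (N₁ : ℝ)) * ((A.card : ℝ) * B.card) ^ (1 - ε) ≤
        γ / 3 * ((A.card : ℝ) * B.card) ^ (1 - ε) :=
      mul_le_mul_of_nonneg_right hcγ (by positivity)
    refine h8.trans ?_
    rw [← Real.log_le_log_iff (by positivity) hZ, Real.log_mul (by positivity)
      (Real.rpow_pos_of_pos hAB0 _).ne', Real.log_rpow hAB0, Real.log_mul (by linarith)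
      (by linarith)]
    change Real.log (γ / 3) + (1 - ε) * (ℓ + Real.log B.card) ≤ _
    linarith
  have hg0 : Real.log (γ / 3) ≤ 0 :=
    Real.log_nonpos (by positivity) (by linarith only [hγ8])
  have hℓ0 : 0 ≤ ℓ := by linarith
  set f := mk T (X e) with hf
  set S2 := S.filter fun x => Real.exp (γ * ℓ) ≤ (fc S f x : ℝ) with hS2
  rcases lt_or_ge (S2.card : ℝ) (γ * S.card) with hcS | hcS
  swap
  · -- sums
    left
    intro B hB
    have hB1 : (1 : ℝ) ≤ B.card := by exact_mod_cast card_pos.2 hB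
    have hm0 : 0 ≤ Real.log B.card := Real.log_nonneg hB1
    have hS2n : S2.Nonempty := card_pos.1 (by
      have : (0 : ℝ) < S2.card := lt_of_lt_of_le (by positivity) hcS
      exact_mod_cast this)
    have ls := long_side (C := C) hε'0 hε'1 hℓ2 hℓ1 hC hℓC (show 2 * δ ≤ 1 by rw [hδ]; linarith)
      (show 4 * δ ≤ γ by rw [hδ, hγ]; linarith) P hP (by
        have : (P.card : ℝ) * Real.log ℓ ≤ δ * ℓ := hPA
        linarith) S hS0 hSs hlogS T e hTS hS2n B hB
    have hsub : ((S + B).card : ℝ) ≤ (A + B).card := by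
      exact_mod_cast card_le_card (add_subset_add_right hSA)
    have hsub2 := Real.log_le_log (by exact_mod_cast card_pos.2 (hSn.add hB)) hsub
    refine hgoal B _ hB (by exact_mod_cast card_pos.2 (hA.add hB)) ?_
    have hlow : ℓ + Real.log (γ / 3) ≤ Real.log S2.card := by
      have hA0 : (0 : ℝ) < A.card := by linarith
      rw [hℓ, ← Real.log_mul hA0.ne' (by positivity)]
      refine Real.log_le_log (by positivity) ?_
      have h3 : γ * (A.card / 3) ≤ γ * S.card := mul_le_mul_of_nonneg_left (by linarith) hγ0.le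
      linarith
    set m := Real.log (B.card : ℝ) with hm
    have h1 : (1 - ε') * (Real.log S2.card + m) ≤ 16 * δ * ℓ + Real.log (A + B).card := by
      have := ls
      linarith
    have h3 : (1 - ε') * (ℓ + Real.log (γ / 3) + m) ≤ (1 - ε') * (Real.log S2.card + m) :=
      mul_le_mul_of_nonneg_left (by linarith) (by linarith)
    have h4 : 16 * δ * ℓ = ε / 4 * ℓ := by rw [hδ]; ring
    have h5 : (1 - ε') * (ℓ + Real.log (γ / 3) + m) =
        (ℓ + m) - ε / 4 * (ℓ + m) + Real.log (γ / 3) - ε / 4 * Real.log (γ / 3) := by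
      rw [hε']; ring
    have h6 : ε / 4 * Real.log (γ / 3) ≤ 0 := mul_nonpos_of_nonneg_of_nonpos (by linarith) hg0
    have h7 : 0 ≤ ε * ℓ := mul_nonneg hε.le hℓ0
    have h8 : 0 ≤ ε * m := mul_nonneg hε.le hm0
    nlinarith only [h1, h3, h4, h5, h6, h7, h8]
  -- products
  right
  intro B hB hB0
  have hB1 : (1 : ℝ) ≤ B.card := by exact_mod_cast card_pos.2 hB
  have hm0 : 0 ≤ Real.log B.card := Real.log_nonneg hB1
  have hlog3 : Real.log 3 ≤ 1.1 := by
    have h9 : Real.log 3 = Real.log 9 / 2 := by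
      rw [show (9 : ℝ) = 3 ^ 2 by norm_num, Real.log_pow]
      push_cast
      ring
    rw [Real.log_le_iff_le_exp (by norm_num)]
    have h10 : (1.1 : ℝ) = 1 + 0.1 := by norm_num
    rw [h10, Real.exp_add]
    have h11 := Real.exp_one_gt_d9
    have h12 : (1.105 : ℝ) ≤ Real.exp 0.1 := by
      have := Real.quadratic_le_exp_of_nonneg (show (0 : ℝ) ≤ 0.1 by norm_num)
      norm_num at this ⊢
      linarith
    nlinarith only [h11, h12]
  have hlog30 : 0 ≤ Real.log 3 := Real.log_nonneg (by norm_num)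
  have sS : (1 - γ) * ((1 - γ) * ℓ - Real.log 3) ≤ h S (mk T (X e)) := by
    have hA0 : (0 : ℝ) < A.card := by linarith
    have h12 : (S2.card : ℝ) +
        ((S.filter fun x => ¬ Real.exp (γ * ℓ) ≤ (fc S (mk T (X e)) x : ℝ)).card : ℝ) =
        S.card := by
      exact_mod_cast card_filter_add_card_filter_not (s := S)
        (fun x => Real.exp (γ * ℓ) ≤ (fc S (mk T (X e)) x : ℝ))
    have hh := h_ge_short S (S.filter fun x => ¬ Real.exp (γ * ℓ) ≤
      (fc S (mk T (X e)) x : ℝ)) hSn (mk T (X e)) (filter_subset _ _) (F := Real.exp (γ * ℓ))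
      (fun x hx => (not_le.1 (mem_filter.1 hx).2).le)
    rw [Real.log_exp] at hh
    have hq : 1 - γ ≤ ((S.filter fun x => ¬ Real.exp (γ * ℓ) ≤
        (fc S (mk T (X e)) x : ℝ)).card : ℝ) / S.card := by
      rw [le_div_iff₀ hSp]
      linarith
    have hlogS' : ℓ - Real.log 3 ≤ Real.log S.card := by
      rw [hℓ, ← Real.log_div hA0.ne' (by norm_num)]
      exact Real.log_le_log (by positivity) (by linarith)
    have hpos : 0 ≤ (1 - γ) * ℓ - Real.log 3 := by nlinarith only [hγ8, hℓ2, hlog3]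
    refine le_trans ?_ hh
    exact mul_le_mul hq (by linarith) hpos (by positivity)
  have main := general_one Λ hΛ1 B S (fun b => b) hB hSn hB0 (fun b hb hh => hS0 (hh ▸ hb)) T e popS
  rw [show S.image (fun b => b) = S from image_id] at main
  have hBS0 : (0 : ℝ) < (B * S).card := by exact_mod_cast card_pos.2 (hB.mul hSn)
  have hsub : ((B * S).card : ℝ) ≤ (A * B).card := by
    rw [mul_comm A B]
    exact_mod_cast card_le_card (mul_subset_mul_left hSA)
  refine (hgoal B _ hB hBS0 ?_).trans hsub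
  set m := Real.log (B.card : ℝ) with hm
  set HS := h S (mk T (X e)) with hHS
  have hHS0 : 0 ≤ HS := h_nonneg _ _
  have main' : (1 - 9 / Real.log Λ) * (m + HS) ≤ Real.log 2 + Real.log (B * S).card := main
  have h1 : (1 - γ) * (m + HS) ≤ (1 - 9 / Real.log Λ) * (m + HS) :=
    mul_le_mul_of_nonneg_right (by linarith only [hΛγ]) (by linarith only [hHS0, hm0])
  have h2 : (1 - γ) * (m + (1 - γ) * ((1 - γ) * ℓ - Real.log 3)) ≤ (1 - γ) * (m + HS) :=
    mul_le_mul_of_nonneg_left (by linarith only [sS]) (by linarith only [hγ8])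
  have h3 : 1 - 3 * γ ≤ (1 - γ) * (1 - γ) * (1 - γ) := by
    have h30 : 0 ≤ γ ^ 2 * (3 - γ) := mul_nonneg (sq_nonneg γ) (by linarith only [hγ8])
    nlinarith only [h30]
  have h4 : (1 - γ) * (1 - γ) ≤ 1 := by nlinarith only [hγ0, hγ8]
  have h5 := mul_le_mul_of_nonneg_right h3 hℓ0
  have h6 := mul_le_mul_of_nonneg_right h4 hlog30
  have h7 : 3 * γ * ℓ ≤ ε * ℓ :=
    mul_le_mul_of_nonneg_right (by rw [hγ]; linarith only [hε]) hℓ0
  have h7' : γ * m ≤ ε * m :=
    mul_le_mul_of_nonneg_right (by rw [hγ]; linarith only [hε]) hm0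
  have h8 : Real.log (γ / 3) ≤ -(Real.log 3 + Real.log 2) := by
    have h9 : Real.log (1 / 6) = -(Real.log 3 + Real.log 2) := by
      rw [one_div, Real.log_inv, show (6 : ℝ) = 3 * 2 by norm_num,
        Real.log_mul (by norm_num) (by norm_num)]
    rw [← h9]
    exact Real.log_le_log (by positivity) (by linarith only [hγ8])
  nlinarith only [main', h1, h2, h5, h6, h7, h7', h8]

end Pool.Agent.X66.SP
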